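import Pool.Agent.Helper8.ZT.Defs

set_option autoImplicit false

/-!
# Zeros of polynomials that are chosen adaptively
-/

namespace Pool.Agent.Helper8.ZT

open Finset

section line

variable {ι : Type} [Fintype ι] [DecidableEq ι] {F : Type} [Fintype F] [DecidableEq F]

/-- Exchange of a coordinate. -/
def swapAt (j : ι) : (ι → F) × F ≃ (ι → F) × F where
  toFun p := (Function.update p.1 j p.2, p.1 j)
  invFun p := (Function.update p.1 j p.2, p.1 j)
  left_inv p := by
    refine Prod.ext ?_ ?_
    · simp
    · simp
  right_inv p := by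
    refine Prod.ext ?_ ?_
    · simp
    · simp

omit [DecidableEq F] in
lemma card_mul_le (j : ι) (B : Finset (ι → F)) (h : ℕ)
    (hB : ∀ ν : ι → F, ∀ S : Finset F, (∀ c ∈ S, Function.update ν j c ∈ B) → S.card ≤ h) :
    B.card * Fintype.card F ≤ h * Fintype.card (ι → F) := by
  classical
  have h1 : ∑ p : (ι → F) × F, (if Function.update p.1 j p.2 ∈ B then 1 else 0) =
      ∑ p : (ι → F) × F, if p.1 ∈ B then 1 else 0 :=
    Fintype.sum_equiv (swapAt j) _ _ (fun p => rfl)
  rw [Fintype.sum_prod_type, Fintype.sum_prod_type] at h1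
  have h2 : ∑ ν : ι → F, ∑ _c : F, (if ν ∈ B then 1 else 0) = B.card * Fintype.card F := by
    have h3 : ∀ ν : ι → F, ∑ _c : F, (if ν ∈ B then 1 else 0) =
        Fintype.card F * (if ν ∈ B then 1 else 0) := by
      intro ν
      rw [sum_const, card_univ, smul_eq_mul]
    rw [sum_congr rfl (fun ν _ => h3 ν), ← mul_sum, ← card_filter, filter_mem_eq_inter,
      univ_inter, Nat.mul_comm]
  have h4 : ∀ ν : ι → F, ∑ c : F, (if Function.update ν j c ∈ B then 1 else 0) ≤ h := by
    intro ν
    rw [← card_filter]
    exact hB ν _ (fun c hc => (mem_filter.1 hc).2)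
  rw [← h2, ← h1]
  calc ∑ ν : ι → F, ∑ c : F, (if Function.update ν j c ∈ B then 1 else 0)
      ≤ ∑ _ν : ι → F, h := sum_le_sum (fun ν _ => h4 ν)
    _ = h * Fintype.card (ι → F) := by
        rw [sum_const, card_univ, smul_eq_mul, Nat.mul_comm]

end line

/-- **Adaptive version of the lemma of Schwartz and Zippel.** The function `φ a` is chosen by the
value `a = A ν`, which takes at most `H` values on every line parallel to an axis. -/
theorem adaptive_sz {ι 𝒜 : Type} [Fintype ι] [DecidableEq ι] (N H d : ℕ)
    (A : (ι → Fin (N + 1)) → 𝒜)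
    (hA : ∀ j ν, ∃ S : Finset 𝒜, S.card ≤ H ∧ ∀ c, A (Function.update ν j c) ∈ S)
    (φ : 𝒜 → (ι → ℝ) → ℝ) (hφ : ∀ a, LineOK (φ a) d) (a0 : ι → ℝ)
    (Bad : Finset (ι → Fin (N + 1)))
    (hBad : ∀ ν ∈ Bad, (∃ y, φ (A ν) y ≠ 0) ∧
      φ (A ν) (fun i => a0 i + 2 * ((ν i : ℕ) : ℝ)) = 0) :
    Bad.card * (N + 1) ≤ Fintype.card ι * (H * d) * Fintype.card (ι → Fin (N + 1)) := by
  classical
  set M := Fintype.card ι with hM
  set e : ι ≃ Fin M := Fintype.equivFin ι with he
  -- the function vanishes on the flat with the first `k` coordinates fixed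
  let Z : ℕ → 𝒜 → (ι → Fin (N + 1)) → Prop := fun k a ν =>
    ∀ y : ι → ℝ, (∀ i, (e i).val < k → y i = a0 i + 2 * ((ν i : ℕ) : ℝ)) → φ a y = 0
  let B : ℕ → Finset (ι → Fin (N + 1)) := fun k =>
    univ.filter (fun ν => ¬ Z k (A ν) ν ∧ Z (k + 1) (A ν) ν)
  have hsub : Bad ⊆ (range M).biUnion B := by
    intro ν hν
    obtain ⟨⟨y, hy⟩, hz⟩ := hBad ν hν
    have hZ0 : ¬ Z 0 (A ν) ν := by
      intro h0
      exact hy (h0 y (fun i hi => absurd hi (Nat.not_lt_zero _)))
    have hZM : Z M (A ν) ν := by
      intro y' hy'
      have : y' = fun i => a0 i + 2 * ((ν i : ℕ) : ℝ) := by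
        funext i
        exact hy' i (e i).isLt
      rw [this]
      exact hz
    have hex : ∃ k, Z k (A ν) ν := ⟨M, hZM⟩
    have hpos : Nat.find hex ≠ 0 := by
      intro h0
      have := Nat.find_spec hex
      rw [h0] at this
      exact hZ0 this
    obtain ⟨k, hk⟩ := Nat.exists_eq_succ_of_ne_zero hpos
    have h1 : Z (k + 1) (A ν) ν := by
      have := Nat.find_spec hex
      rwa [hk] at this
    have h2 : ¬ Z k (A ν) ν := Nat.find_min hex (by omega)
    have h3 : Nat.find hex ≤ M := Nat.find_min' hex hZM
    rw [mem_biUnion]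
    exact ⟨k, mem_range.2 (by omega), mem_filter.2 ⟨mem_univ _, h2, h1⟩⟩
  have hone : ∀ k ∈ range M, (B k).card * (N + 1) ≤
      (H * d) * Fintype.card (ι → Fin (N + 1)) := by
    intro k hk
    have hkM := mem_range.1 hk
    obtain ⟨j, hj⟩ : ∃ j, e j = ⟨k, hkM⟩ := ⟨e.symm ⟨k, hkM⟩, e.apply_symm_apply _⟩
    have hjk : ∀ i, (e i).val < k → i ≠ j := by
      intro i hi hij
      rw [hij, hj] at hi
      exact absurd hi (lt_irrefl k)
    have hkj : ∀ i, (e i).val < k + 1 → i ≠ j → (e i).val < k := by
      intro i hi hij
      rcases Nat.lt_or_ge (e i).val k with h1 | h1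
      · exact h1
      · exfalso
        apply hij
        apply e.injective
        rw [hj]
        apply Fin.ext
        show (e i).val = k
        omega
    have key := card_mul_le j (B k) (H * d) (by
      intro ν S hS
      obtain ⟨SA, hSA, hmem⟩ := hA j ν
      have hcov : S ⊆ SA.biUnion (fun a => S.filter (fun c => A (Function.update ν j c) = a)) := by
        intro c hc
        rw [mem_biUnion]
        exact ⟨_, hmem c, mem_filter.2 ⟨hc, rfl⟩⟩
      refine (card_le_card hcov).trans (card_biUnion_le.trans ?_)
      refine (sum_le_card_nsmul _ _ d ?_).trans ?_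
      · intro a _
        rcases (S.filter (fun c => A (Function.update ν j c) = a)).eq_empty_or_nonempty with h0 | h0
        · rw [h0]; simp
        · obtain ⟨c0, hc0⟩ := h0
          obtain ⟨hc0S, hc0a⟩ := mem_filter.1 hc0
          have h1 := (mem_filter.1 (hS c0 hc0S)).2.1
          rw [hc0a] at h1
          simp only [Z] at h1
          push Not at h1
          obtain ⟨y0, hy0, hne⟩ := h1
          have hy0' : ∀ i, (e i).val < k → y0 i = a0 i + 2 * ((ν i : ℕ) : ℝ) := by
            intro i hi
            rw [hy0 i hi, Function.update_of_ne (hjk i hi)]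
          have hline : ∀ c : ℝ, (fun i => Function.update y0 j (a0 j) i + c *
              (Pi.single j (2 : ℝ) : ι → ℝ) i) = Function.update y0 j (a0 j + 2 * c) := by
            intro c
            funext i
            by_cases hi : i = j
            · subst hi
              rw [Function.update_self, Function.update_self, Pi.single_eq_same]
              ring
            · rw [Function.update_of_ne hi, Function.update_of_ne hi, Pi.single_eq_of_ne hi]
              ring
          rcases hφ a (Function.update y0 j (a0 j)) (Pi.single j 2) with h2 | h2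
          · exfalso
            have h3 := h2 ((y0 j - a0 j) / 2)
            rw [hline] at h3
            have h4 : a0 j + 2 * ((y0 j - a0 j) / 2) = y0 j := by ring
            rw [h4, Function.update_eq_self] at h3
            exact hne h3
          · have h3 := h2 ((S.filter (fun c => A (Function.update ν j c) = a)).image
              (fun c : Fin (N + 1) => ((c.val : ℕ) : ℝ))) (by
                intro x hx
                obtain ⟨c, hc, rfl⟩ := mem_image.1 hx
                obtain ⟨hcS, hca⟩ := mem_filter.1 hc
                have h5 := (mem_filter.1 (hS c hcS)).2.2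
                rw [hca] at h5
                rw [hline]
                apply h5
                intro i hi
                by_cases hij : i = j
                · subst hij
                  rw [Function.update_self, Function.update_self]
                · rw [Function.update_of_ne hij, Function.update_of_ne hij]
                  exact hy0' i (hkj i hi hij))
            rwa [card_image_of_injective _
              (fun (c c' : Fin (N + 1)) (hcc : ((c.val : ℕ) : ℝ) = ((c'.val : ℕ) : ℝ)) =>
                Fin.ext (by exact_mod_cast hcc))] at h3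
      · rw [smul_eq_mul]
        exact Nat.mul_le_mul_right _ hSA)
    rw [Fintype.card_fin] at key
    exact key
  calc Bad.card * (N + 1) ≤ (∑ k ∈ range M, (B k).card) * (N + 1) :=
        Nat.mul_le_mul_right _ ((card_le_card hsub).trans card_biUnion_le)
    _ = ∑ k ∈ range M, (B k).card * (N + 1) := sum_mul _ _ _
    _ ≤ ∑ _k ∈ range M, (H * d) * Fintype.card (ι → Fin (N + 1)) := sum_le_sum hone
    _ = M * (H * d) * Fintype.card (ι → Fin (N + 1)) := by
        rw [sum_const, card_range, smul_eq_mul]
        ring

end Pool.Agent.Helper8.ZT
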