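import Pool.Agent.Helper8.ZT.Main
import Pool.Agent.Helper74.SP.Numeric2

set_option autoImplicit false

/-!
# The final bound for sign queries and zero tests
-/

namespace Pool.Agent.Helper8.ZT

open Finset
open Pool.Agent.Helper22.ETModel Pool.Agent.Helper22.TSModel Pool.Agent.Helper22.EP
open Pool.Agent.Helper23.SP

variable {n m s K C d D W R N : ℕ}

/-- The noise is large enough. -/
lemma small_ok (h3m : 3 * m ≤ n)
    (hN : d ≠ 0 → 3 * n ^ (2 * s + 7) * (2 * K + 1) ^ s * (2 * C + 1) ≤ N)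
    (hD : D * d ≤ n ^ 3) :
    24 * m ^ 2 * (D * (Fintype.card (E m) *
      ((2 * ((n ^ 2 * (2 * K + 1)) ^ s * (2 * C + 1)) + 1) * d))) < N + 1 := by
  rcases Nat.eq_zero_or_pos d with hd | hd
  · subst hd
    rw [Nat.mul_zero, Nat.mul_zero, Nat.mul_zero, Nat.mul_zero]
    omega
  rcases Nat.eq_zero_or_pos n with hn | hn
  · subst hn
    have hm : m = 0 := by omega
    subst hm
    simp
  have hN' := hN hd.ne'
  set Hs := (n ^ 2 * (2 * K + 1)) ^ s * (2 * C + 1) with hHs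
  have hHs1 : 1 ≤ Hs := Nat.mul_pos (Nat.pow_pos (Nat.mul_pos (Nat.pow_pos hn) (by omega)))
    (by omega)
  have hcard : Fintype.card (E m) = 3 * m ^ 2 := by
    rw [Fintype.card_prod, Fintype.card_prod, Fintype.card_fin, Fintype.card_fin]
    ring
  rw [hcard]
  have h1 : 2 * Hs + 1 ≤ 3 * Hs := by omega
  have h2 : 81 * m ^ 4 ≤ n ^ 4 := by
    calc 81 * m ^ 4 = (3 * m) ^ 4 := by ring
      _ ≤ n ^ 4 := Nat.pow_le_pow_left h3m 4
  have h3 : 3 * n ^ (2 * s + 7) * (2 * K + 1) ^ s * (2 * C + 1) = 3 * n ^ 4 * n ^ 3 * Hs := by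
    rw [hHs, mul_pow, ← pow_mul]
    rw [show 2 * s + 7 = 4 + (3 + 2 * s) by ring, pow_add, pow_add]
    ring
  have h4 : 24 * m ^ 2 * (D * (3 * m ^ 2 * ((2 * Hs + 1) * d))) ≤
      216 * m ^ 4 * n ^ 3 * Hs := by
    calc 24 * m ^ 2 * (D * (3 * m ^ 2 * ((2 * Hs + 1) * d)))
        = 72 * m ^ 4 * (D * d) * (2 * Hs + 1) := by ring
      _ ≤ 72 * m ^ 4 * n ^ 3 * (3 * Hs) :=
          Nat.mul_le_mul (Nat.mul_le_mul_left _ hD) h1
      _ = 216 * m ^ 4 * n ^ 3 * Hs := by ring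
  have h5 : 216 * m ^ 4 * n ^ 3 * Hs ≤ 3 * n ^ 4 * n ^ 3 * Hs := by
    apply Nat.mul_le_mul_right
    apply Nat.mul_le_mul_right
    omega
  omega

theorem quantitative3 {n s K C d N D W R : ℕ} (hn : 3 ≤ n) (hs : 1 ≤ s) (hK : 1 ≤ K) {k x : ℕ}
    (hk : 1 ≤ k) (hsx : s ≤ x) (hWx : 16 * n ^ 4 * W ≤ 2 ^ x)
    (hN : d ≠ 0 → 3 * n ^ (2 * s + 7) * (2 * K + 1) ^ s * (2 * C + 1) ≤ N)
    (hsz : (3 * s * K) ^ (2 * (s + 1) * k) * x ^ (2 * s * k) * n ^ (2 * s) *
      (C + s * K * (2 * N + 1) + 1) ≤ n ^ 300)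
    (A : Alg n D W R (MixQ n s K C d) SignType) (hA : A.Decides (mixFam n s K C d)) :
    (n : ℝ) ^ (3 - 1 / (k : ℝ)) ≤
      (2 ^ 13 * Real.logb 2 n) ^ (2 * k) * s * x * (2 * d + 1) * D := by
  obtain ⟨m, hmdef⟩ : ∃ m, m = n / 3 := ⟨_, rfl⟩
  have h3m : 3 * m ≤ n := by omega
  have hm : 1 ≤ m := by omega
  have hn5 : n ≤ 5 * m := by omega
  have hx1 : 1 ≤ x := hs.trans hsx
  have hn1 : (1 : ℝ) ≤ n := by exact_mod_cast (show 1 ≤ n by omega)
  have hm1 : (1 : ℝ) ≤ m := by exact_mod_cast hm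
  have hk1 : (1 : ℝ) ≤ k := by exact_mod_cast hk
  have hs1 : (1 : ℝ) ≤ s := by exact_mod_cast hs
  have hxr : (1 : ℝ) ≤ x := by exact_mod_cast hx1
  have hD0 : (0 : ℝ) ≤ D := Nat.cast_nonneg D
  have hd0 : (0 : ℝ) ≤ d := Nat.cast_nonneg d
  have hlogn : 1 ≤ Real.logb 2 n := by
    rw [Real.le_logb_iff_rpow_le (by norm_num) (by linarith), Real.rpow_one]
    have : (3 : ℝ) ≤ n := by exact_mod_cast hn
    linarith
  have hexp0 : 0 ≤ 3 - 1 / (k : ℝ) := by
    have : 1 / (k : ℝ) ≤ 1 := by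
      rw [div_le_one (by linarith)]; exact hk1
    linarith
  have hexp3 : 3 - 1 / (k : ℝ) ≤ 3 := by
    have : 0 ≤ 1 / (k : ℝ) := by positivity
    linarith
  -- the parts of the queries
  obtain ⟨T, hTdef⟩ : ∃ T, T = max 1 d := ⟨_, rfl⟩
  have hT1 : 1 ≤ T := by rw [hTdef]; exact le_max_left _ _
  have hdT : d ≤ T := by rw [hTdef]; exact le_max_right _ _
  have hW : 1 ≤ W := by
    have h1 := (A.init (fun _ _ => false) (fun _ => false)).isLt
    omega
  have hx2 : 2 ≤ x := by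
    by_contra hcon
    have hx' : x = 1 := by omega
    rw [hx'] at hWx
    have h1 : 1 ≤ n ^ 4 * W := Nat.mul_pos (Nat.pow_pos (by omega)) hW
    have h2 : 16 * n ^ 4 * W = 16 * (n ^ 4 * W) := by ring
    omega
  obtain ⟨s', hs'def⟩ : ∃ s', s' = if d = 0 then s else max s 2 := ⟨_, rfl⟩
  have hss : s ≤ s' := by
    rw [hs'def]; split_ifs
    · exact le_rfl
    · exact le_max_left _ _
  have hs2 : d ≠ 0 → 2 ≤ s' := by
    intro hd
    rw [hs'def, if_neg hd]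
    exact le_max_right _ _
  have hs'x : s' ≤ x := by
    rw [hs'def]; split_ifs
    · exact hsx
    · exact max_le hsx hx2
  have hs'1 : 1 ≤ s' := hs.trans hss
  have hsT : s' * T ≤ s * (2 * d + 1) := by
    rcases Nat.eq_zero_or_pos d with hd | hd
    · rw [hs'def, if_pos hd, hTdef, hd]
      simp
    · rw [hs'def, if_neg hd.ne', hTdef, max_eq_right (by omega : 1 ≤ d)]
      rcases Nat.lt_or_ge s 2 with h2 | h2
      · have : s = 1 := by omega
        subst this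
        rw [max_eq_right (by omega)]
        omega
      · rw [max_eq_left h2]
        apply Nat.mul_le_mul_left
        omega
  have hTd : T ≤ 2 * d + 1 := by
    rw [hTdef]
    exact max_le (by omega) (by omega)
  -- the size conditions
  have hsz2 : (3 * s * K) ^ ((s + 1) * (2 * k)) * n ^ (2 * s) * x ^ (s * (2 * k)) *
      (C + s * K * (2 * N + 1) + 1) ≤ n ^ 300 := by
    calc _ = (3 * s * K) ^ (2 * (s + 1) * k) * x ^ (2 * s * k) * n ^ (2 * s) *
          (C + s * K * (2 * N + 1) + 1) := by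
          rw [show (s + 1) * (2 * k) = 2 * (s + 1) * k by ring,
            show s * (2 * k) = 2 * s * k by ring]
          ring
      _ ≤ n ^ 300 := hsz
  have hsz1 : (3 * s * K) ^ ((s + 1) * (2 * k)) * n ^ (2 * s) *
      (C + s * K * (2 * N + 1) + 1) ≤ n ^ 300 := by
    refine le_trans ?_ hsz2
    apply Nat.mul_le_mul_right
    exact Nat.le_mul_of_pos_right _ (Nat.pow_pos hx1)
  -- large number of queries
  by_cases hD : n ^ 3 < D * T
  · have h1 : (n : ℝ) ^ (3 - 1 / (k : ℝ)) ≤ (n : ℝ) ^ (3 : ℝ) :=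
      Real.rpow_le_rpow_of_exponent_le hn1 hexp3
    have h2 : (n : ℝ) ^ (3 : ℝ) ≤ (2 * d + 1) * D := by
      have h21 : n ^ 3 ≤ (2 * d + 1) * D := by
        calc n ^ 3 ≤ D * T := hD.le
          _ ≤ D * (2 * d + 1) := Nat.mul_le_mul_left _ hTd
          _ = (2 * d + 1) * D := Nat.mul_comm _ _
      have : ((n ^ 3 : ℕ) : ℝ) ≤ (((2 * d + 1) * D : ℕ) : ℝ) := by exact_mod_cast h21
      push_cast at this
      calc (n : ℝ) ^ (3 : ℝ) = (n : ℝ) ^ (3 : ℕ) := by norm_cast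
        _ ≤ (2 * d + 1) * D := this
    have h3 : (1 : ℝ) ≤ (2 ^ 13 * Real.logb 2 n) ^ (2 * k) := one_le_pow₀ (by nlinarith)
    have h4 : (1 : ℝ) ≤ (2 ^ 13 * Real.logb 2 n) ^ (2 * k) * s * x :=
      one_le_mul_of_one_le_of_one_le (one_le_mul_of_one_le_of_one_le h3 hs1) hxr
    calc (n : ℝ) ^ (3 - 1 / (k : ℝ)) ≤ (2 * d + 1) * D := h1.trans h2
      _ ≤ ((2 ^ 13 * Real.logb 2 n) ^ (2 * k) * s * x) * ((2 * d + 1) * D) :=
          le_mul_of_one_le_left (by positivity) h4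
      _ = _ := by ring
  push Not at hD
  have hDd : D * d ≤ n ^ 3 := (Nat.mul_le_mul_left _ hdT).trans hD
  have hsmall := small_ok (D := D) h3m hN hDd
  have htriv := trivial_bound3 h3m hm hs hK (k := 2 * k) (by omega) hsz1 hss hs2 hT1 hdT hsmall A hA
  -- the parameter `t`
  obtain ⟨t, htdef⟩ : ∃ t, t = Nat.clog 2 (2 * m) := ⟨_, rfl⟩
  have ht2 : 2 * m ≤ 2 ^ t := by rw [htdef]; exact Nat.le_pow_clog (by norm_num) _
  have ht1 : 1 ≤ t := by rw [htdef]; exact Nat.clog_pos (by norm_num) (by omega)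
  have htle : (t : ℝ) ≤ 2 * Real.logb 2 n := by
    have h1 := Nat.pow_pred_clog_lt_self (b := 2) (x := 2 * m) (by norm_num) (by omega)
    rw [← htdef] at h1
    have h2 : (t : ℝ) - 1 ≤ Real.logb 2 n := by
      rw [Real.le_logb_iff_rpow_le (by norm_num) (by positivity)]
      have h3 : ((2 ^ t.pred : ℕ) : ℝ) ≤ ((n : ℕ) : ℝ) := by
        have : 2 ^ t.pred ≤ n := h1.le.trans (by omega)
        exact_mod_cast this
      push_cast at h3
      calc (2 : ℝ) ^ ((t : ℝ) - 1) = (2 : ℝ) ^ t.pred := by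
            rw [← Real.rpow_natCast]
            congr 1
            rw [Nat.pred_eq_sub_one, Nat.cast_sub ht1, Nat.cast_one]
        _ ≤ n := h3
    linarith
  -- the bound for `m`
  have hnum : (m : ℝ) ^ (3 - 2 / ((2 * k : ℕ) : ℝ)) ≤
      6 * (120 * (t : ℝ)) ^ (2 * k) * s' * x * ((D * T : ℕ) : ℝ) := by
    apply Pool.Agent.Helper74.SP.numeric2 hm hs'1 hs'x (by omega) ht1 htriv
    intro β l r0 Nw hβ hl1 hl hbk hr0 hr01 hNw hNw'
    apply main_bound3 h3m hs hK hsz2 hss hs2 hT1 hdT hsmall hβ ht1 hl1 hl hbk ht2 hr0 hr01 hNw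
      hNw' _ A hA
    have hkm : 2 * k ≤ m := by
      have h1 : 2 * k < 60 ^ (2 * k) := Nat.lt_pow_self (by norm_num)
      have h2 : 60 ^ (2 * k) ≤ (60 * β * t) ^ (2 * k) := by
        apply Nat.pow_le_pow_left
        rw [mul_assoc]
        exact Nat.le_mul_of_pos_right 60 (Nat.mul_pos hβ ht1)
      omega
    have h5 : D * T + m ≤ 2 * n ^ 3 := by
      have h6 : m ≤ n ^ 3 := by
        calc m ≤ n := by omega
          _ = n * 1 := (Nat.mul_one n).symm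
          _ ≤ n * n ^ 2 := Nat.mul_le_mul_left _ (Nat.pow_pos (by omega))
          _ = n ^ 3 := by ring
      omega
    calc 12 * (2 * (D * T + m) * W * (2 * k))
        ≤ 12 * (2 * (2 * n ^ 3) * W * m) := by
          apply Nat.mul_le_mul_left
          apply Nat.mul_le_mul _ hkm
          apply Nat.mul_le_mul_right
          exact Nat.mul_le_mul_left _ h5
      _ = 16 * n ^ 3 * W * (3 * m) := by ring
      _ ≤ 16 * n ^ 3 * W * n := Nat.mul_le_mul_left _ h3m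
      _ = 16 * n ^ 4 * W := by ring
      _ ≤ 2 ^ x := hWx
  have hexp : 3 - 2 / ((2 * k : ℕ) : ℝ) = 3 - 1 / (k : ℝ) := by
    push_cast
    have : (k : ℝ) ≠ 0 := by positivity
    field_simp
  rw [hexp] at hnum
  -- conclusion
  have h1 : (n : ℝ) ^ (3 - 1 / (k : ℝ)) ≤ (5 * (m : ℝ)) ^ (3 - 1 / (k : ℝ)) := by
    apply Real.rpow_le_rpow (by linarith) _ hexp0
    exact_mod_cast hn5
  have h2 : (5 * (m : ℝ)) ^ (3 - 1 / (k : ℝ)) ≤ 125 * (m : ℝ) ^ (3 - 1 / (k : ℝ)) := by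
    rw [Real.mul_rpow (by norm_num) (by linarith)]
    apply mul_le_mul_of_nonneg_right _ (by positivity)
    calc (5 : ℝ) ^ (3 - 1 / (k : ℝ)) ≤ (5 : ℝ) ^ (3 : ℝ) :=
          Real.rpow_le_rpow_of_exponent_le (by norm_num) hexp3
      _ = 125 := by norm_num
  have h3 : (750 : ℝ) ≤ 28 ^ (2 * k) := by
    calc (750 : ℝ) ≤ 28 ^ 2 := by norm_num
      _ ≤ 28 ^ (2 * k) := pow_le_pow_right₀ (by norm_num) (by omega)
  have hsxD : 0 ≤ ((s' * T : ℕ) : ℝ) * (x * D) := by positivity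
  have hsTr : ((s' * T : ℕ) : ℝ) ≤ s * (2 * d + 1) := by exact_mod_cast hsT
  have h4 : (120 * (t : ℝ)) ^ (2 * k) ≤ (240 * Real.logb 2 n) ^ (2 * k) := by
    apply pow_le_pow_left₀ (by positivity)
    linarith
  calc (n : ℝ) ^ (3 - 1 / (k : ℝ)) ≤ 125 * (m : ℝ) ^ (3 - 1 / (k : ℝ)) := h1.trans h2
    _ ≤ 125 * (6 * (120 * (t : ℝ)) ^ (2 * k) * s' * x * ((D * T : ℕ) : ℝ)) :=
        mul_le_mul_of_nonneg_left hnum (by norm_num)
    _ = 750 * (120 * (t : ℝ)) ^ (2 * k) * (((s' * T : ℕ) : ℝ) * (x * D)) := by push_cast; ring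
    _ ≤ 28 ^ (2 * k) * (240 * Real.logb 2 n) ^ (2 * k) * (((s' * T : ℕ) : ℝ) * (x * D)) := by
        apply mul_le_mul_of_nonneg_right _ hsxD
        exact mul_le_mul h3 h4 (by positivity) (by positivity)
    _ = (28 * (240 * Real.logb 2 n)) ^ (2 * k) * (((s' * T : ℕ) : ℝ) * (x * D)) := by
        rw [mul_pow 28]
    _ ≤ (2 ^ 13 * Real.logb 2 n) ^ (2 * k) * (((s' * T : ℕ) : ℝ) * (x * D)) := by
        apply mul_le_mul_of_nonneg_right _ hsxD
        apply pow_le_pow_left₀ (by positivity)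
        nlinarith
    _ ≤ (2 ^ 13 * Real.logb 2 n) ^ (2 * k) * ((s * (2 * d + 1)) * (x * D)) := by
        apply mul_le_mul_of_nonneg_left _ (by positivity)
        exact mul_le_mul_of_nonneg_right hsTr (by positivity)
    _ = (2 ^ 13 * Real.logb 2 n) ^ (2 * k) * s * x * (2 * d + 1) * D := by ring

end Pool.Agent.Helper8.ZT
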