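import Mathlib
import Pool.Agent.Helper22.TSModel
import Pool.Agent.Helper22.EPPoly
import Pool.Agent.Helper23.SP.Defs

set_option autoImplicit false

/-!
# Exact Triangle with small memory: sparse sign queries and dense zero tests

Definitions for project ZT.
-/

namespace Pool.Agent.Helper8.ZT

open Finset
open Pool.Agent.Helper22.ETModel Pool.Agent.Helper22.TSModel Pool.Agent.Helper22.EP
open Pool.Agent.Helper23.SP

/-- Queries of two kinds: the sign of a sparse integer affine form, and a zero test of a polynomial
with real coefficients and total degree at most `d` in all the weights. -/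
inductive MixQ (n s K C d : ℕ)
  | sign (q : SparseQ n s K C)
  | zero (f : MvPolynomial (Fin n × Fin n) ℝ) (hf : f.totalDegree ≤ d)

open Classical in
/-- The family of these queries. The answer to a sign query is the sign; the answer to a zero test
is `0` if the polynomial vanishes at the weights, and `1` otherwise. -/
noncomputable def mixFam (n s K C d : ℕ) : Family n (MixQ n s K C d) SignType where
  cells q := match q with
    | .sign q => Finset.univ.image fun l => s((q.cell l).1, (q.cell l).2)
    | .zero _ _ => Finset.univ
  ans q I := match q with
    | .sign q => SignType.sign (q.val I)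
    | .zero f _ => if evalP f I = 0 then 0 else 1

/-- On every line the function `P` vanishes identically or has at most `d` zeros. -/
def LineOK {ι : Type} (P : (ι → ℝ) → ℝ) (d : ℕ) : Prop :=
  ∀ u v : ι → ℝ, (∀ c : ℝ, P (fun i => u i + c * v i) = 0) ∨
    ∀ S : Finset ℝ, (∀ c ∈ S, P (fun i => u i + c * v i) = 0) → S.card ≤ d

section poly

variable {m n : ℕ}

/-- The value of the polynomial `f` on the instance in which the element `e` has the value `y e`. -/
noncomputable def pev (h : 3 * m ≤ n) (f : MvPolynomial (Fin n × Fin n) ℝ) (y : E m → ℝ) : ℝ :=
  MvPolynomial.eval (fun e => (sg e : ℝ) * y e) (redP h f)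

open Classical in
/-- The pairs (element of type `0`, element of type `1`) covered by `f`: if `f` does not vanish
identically, these are the pairs for which `f` vanishes whenever the two values are equal. -/
noncomputable def covp (h : 3 * m ≤ n) (f : MvPolynomial (Fin n × Fin n) ℝ) :
    Finset (E m × E m) :=
  if ∀ y, pev h f y = 0 then ∅
  else univ.filter (fun p => p.1.1 = 0 ∧ p.2.1 = 1 ∧ ∀ y, y p.1 = y p.2 → pev h f y = 0)

end poly

section noise

variable {m N : ℕ}

/-- The last digits in the basic instance with noise `ν`. -/
def tinyN (ν : E m → Fin (N + 1)) (e : E m) : ℤ :=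
  2 * ((ν e : ℕ) : ℤ) + (if e.1 = 0 then 1 else 0)

/-- The last digits in the instance in which the last digit of `e0` is replaced by that of `e1`. -/
def tinyQ (ν : E m → Fin (N + 1)) (e0 e1 : E m) (e : E m) : ℤ :=
  if e = e0 then 2 * ((ν e1 : ℕ) : ℤ) else tinyN ν e

end noise

end Pool.Agent.Helper8.ZT
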