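import Pool.Agent.Helper8.ZT.Reg
import Pool.Agent.Helper8.ZT.Defs

set_option autoImplicit false

/-!
# Simulation of real registers by memory states
-/

namespace Pool.Agent.Helper8.ZT

open Finset
open Pool.Agent.Helper22.ETModel Pool.Agent.Helper22.TSModel Pool.Agent.Helper22.EP
open Pool.Agent.Helper23.SP (SparseQ)

variable {n D W R s K C d e r : ℕ}

lemma totalDegree_aeval_mul_le {σ ι : Type*} {e : ℕ} (g : σ → MvPolynomial ι ℝ)
    (hg : ∀ i, (g i).totalDegree ≤ e) (F : MvPolynomial σ ℝ) :
    (MvPolynomial.aeval g F).totalDegree ≤ F.totalDegree * e := by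
  rw [MvPolynomial.aeval_def, MvPolynomial.eval₂]
  apply MvPolynomial.totalDegree_finsetSum_le
  intro s hs
  refine (MvPolynomial.totalDegree_mul _ _).trans ?_
  have h1 : ((algebraMap ℝ (MvPolynomial ι ℝ)) (MvPolynomial.coeff s F)).totalDegree = 0 :=
    MvPolynomial.totalDegree_C _
  have h2 : (s.prod fun i k => g i ^ k).totalDegree ≤ (s.sum fun _ k => k) * e := by
    unfold Finsupp.prod Finsupp.sum
    refine (MvPolynomial.totalDegree_finsetProd _ _).trans ?_
    rw [Finset.sum_mul]
    apply Finset.sum_le_sum
    intro i _
    exact (MvPolynomial.totalDegree_pow _ _).trans (Nat.mul_le_mul_left _ (hg i))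
  have h3 : (s.sum fun _ k => k) ≤ F.totalDegree := MvPolynomial.le_totalDegree hs
  have h4 : ((algebraMap ℝ (MvPolynomial ι ℝ)) (MvPolynomial.coeff s F)).totalDegree +
      (s.prod fun i k => g i ^ k).totalDegree ≤ F.totalDegree * e := by
    rw [h1, zero_add]; exact h2.trans (Nat.mul_le_mul_right _ h3)
  exact h4

/-- The contents of the registers are described by the time and the state at which they were
loaded. -/
abbrev Hist (D W r : ℕ) := Fin r → Option (Fin D × Fin W)

lemma card_hist (D W r : ℕ) :
    Fintype.card (Fin W × Hist D W r) = W * (D * W + 1) ^ r := by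
  rw [Fintype.card_prod, Fintype.card_fin, Fintype.card_fun, Fintype.card_option,
    Fintype.card_prod, Fintype.card_fin, Fintype.card_fin, Fintype.card_fin]

/-- The polynomial loaded at a given time in a given state. -/
noncomputable def polyOf (A : Alg n D W R (RegQ n s K C d e r) SignType)
    (fl : Fin n → Fin n → Bool) (ρ : Fin R → Bool) :
    Option (Fin D × Fin W) → MvPolynomial (Fin n × Fin n) ℝ
  | none => 0
  | some p => match A.ask fl ρ p.1 p.2 with
    | .sign _ => 0
    | .load _ f _ => f
    | .copy _ _ => 0
    | .zero _ _ => 0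

lemma totalDegree_polyOf (A : Alg n D W R (RegQ n s K C d e r) SignType)
    (fl : Fin n → Fin n → Bool) (ρ : Fin R → Bool) (o : Option (Fin D × Fin W)) :
    (polyOf A fl ρ o).totalDegree ≤ e := by
  cases o with
  | none => simp [polyOf]
  | some p =>
    unfold polyOf
    dsimp only
    generalize A.ask fl ρ p.1 p.2 = Q
    cases Q with
    | sign q => simp
    | load a f hf => exact hf
    | copy a b => simp
    | zero P hP => simp

/-- Substitution of the polynomials in the registers. -/
noncomputable def compP (A : Alg n D W R (RegQ n s K C d e r) SignType)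
    (fl : Fin n → Fin n → Bool) (ρ : Fin R → Bool) (h : Hist D W r)
    (P : MvPolynomial ((Fin n × Fin n) ⊕ Fin r) ℝ) : MvPolynomial (Fin n × Fin n) ℝ :=
  MvPolynomial.aeval (Sum.elim MvPolynomial.X (fun a => polyOf A fl ρ (h a))) P

lemma totalDegree_compP (A : Alg n D W R (RegQ n s K C d e r) SignType) (he : 1 ≤ e)
    (fl : Fin n → Fin n → Bool) (ρ : Fin R → Bool) (h : Hist D W r)
    (P : MvPolynomial ((Fin n × Fin n) ⊕ Fin r) ℝ) (hP : P.totalDegree ≤ d) :
    (compP A fl ρ h P).totalDegree ≤ d * e := by
  refine (totalDegree_aeval_mul_le _ ?_ P).trans (Nat.mul_le_mul_right _ hP)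
  intro i
  cases i with
  | inl c =>
    show (MvPolynomial.X c : MvPolynomial (Fin n × Fin n) ℝ).totalDegree ≤ e
    rw [MvPolynomial.totalDegree_X]
    exact he
  | inr a => exact totalDegree_polyOf A fl ρ (h a)

lemma evalP_compP (A : Alg n D W R (RegQ n s K C d e r) SignType) (I : Inst n)
    (ρ : Fin R → Bool) (h : Hist D W r) (P : MvPolynomial ((Fin n × Fin n) ⊕ Fin r) ℝ)
    (x : Fin r → ℝ) (hx : ∀ a, evalP (polyOf A I.flag ρ (h a)) I = x a) :
    evalP (compP A I.flag ρ h P) I =
      MvPolynomial.eval (Sum.elim (fun c : Fin n × Fin n => (I.wt c.1 c.2 : ℝ)) x) P := by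
  unfold evalP compP
  rw [eval_aeval]
  congr 2
  funext i
  cases i with
  | inl c => simp
  | inr a =>
    show MvPolynomial.eval _ (polyOf A I.flag ρ (h a)) = x a
    rw [← hx a]
    rfl

/-- The simulating algorithm. -/
noncomputable def simAlg (A : Alg n D W R (RegQ n s K C d e r) SignType) (he : 1 ≤ e) {W' : ℕ}
    (E : Fin W' ≃ Fin W × Hist D W r) : Alg n D W' R (MixQ n s K C (d * e)) SignType where
  init fl ρ := E.symm (A.init fl ρ, fun _ => none)
  ask fl ρ t u := match A.ask fl ρ t (E u).1 with
    | .sign q => .sign q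
    | .load _ _ _ => .zero 0 (by simp)
    | .copy _ _ => .zero 0 (by simp)
    | .zero P hP => .zero (compP A fl ρ (E u).2 P) (totalDegree_compP A he fl ρ (E u).2 P hP)
  next fl ρ t u ans := match A.ask fl ρ t (E u).1 with
    | .sign _ => E.symm (A.next fl ρ t (E u).1 ans, (E u).2)
    | .load a _ _ => E.symm (A.next fl ρ t (E u).1 0,
        if ht : t < D then Function.update (E u).2 a (some (⟨t, ht⟩, (E u).1)) else (E u).2)
    | .copy a b => E.symm (A.next fl ρ t (E u).1 0, Function.update (E u).2 a ((E u).2 b))
    | .zero _ _ => E.symm (A.next fl ρ t (E u).1 ans, (E u).2)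
  out fl ρ u := A.out fl ρ (E u).1

theorem simAlg_state (A : Alg n D W R (RegQ n s K C d e r) SignType) (he : 1 ≤ e) {W' : ℕ}
    (E : Fin W' ≃ Fin W × Hist D W r) (I : Inst n) (ρ : Fin R → Bool) (t : ℕ) (ht : t ≤ D) :
    (E ((simAlg A he E).state (mixFam n s K C (d * e)) I ρ t)).1 = (regRun A I ρ t).1 ∧
    ∀ a, evalP (polyOf A I.flag ρ
      ((E ((simAlg A he E).state (mixFam n s K C (d * e)) I ρ t)).2 a)) I =
        (regRun A I ρ t).2 a := by
  classical
  induction t with
  | zero =>
    have h0 : (simAlg A he E).state (mixFam n s K C (d * e)) I ρ 0 =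
      E.symm (A.init I.flag ρ, fun _ => none) := rfl
    rw [h0, Equiv.apply_symm_apply]
    refine ⟨rfl, fun a => ?_⟩
    show evalP (0 : MvPolynomial (Fin n × Fin n) ℝ) I = 0
    unfold evalP
    rw [map_zero]
  | succ t ih =>
    obtain ⟨ih1, ih2⟩ := ih (by omega)
    set u := (simAlg A he E).state (mixFam n s K C (d * e)) I ρ t with hu
    have hsucc : (simAlg A he E).state (mixFam n s K C (d * e)) I ρ (t + 1) =
      (simAlg A he E).next I.flag ρ t u
        ((mixFam n s K C (d * e)).ans ((simAlg A he E).ask I.flag ρ t u) I) := rfl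
    rw [hsucc]
    set v := (regRun A I ρ t).1 with hv
    cases hq : A.ask I.flag ρ t v with
    | sign q =>
      have hrun : regRun A I ρ (t + 1) =
          (A.next I.flag ρ t v (SignType.sign (q.val I)), (regRun A I ρ t).2) := by
        rw [regRun, ← hv, hq]
      have hask : (simAlg A he E).ask I.flag ρ t u = .sign q := by
        unfold simAlg
        dsimp only
        rw [ih1, hq]
      have hnext : ∀ ans, (simAlg A he E).next I.flag ρ t u ans =
          E.symm (A.next I.flag ρ t v ans, (E u).2) := by
        intro ans
        unfold simAlg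
        dsimp only
        rw [ih1, hq]
      rw [hask, hnext, hrun, Equiv.apply_symm_apply]
      exact ⟨rfl, ih2⟩
    | load a f hf =>
      have hrun : regRun A I ρ (t + 1) =
          (A.next I.flag ρ t v 0, Function.update (regRun A I ρ t).2 a (evalP f I)) := by
        rw [regRun, ← hv, hq]
      have hnext : ∀ ans, (simAlg A he E).next I.flag ρ t u ans =
          E.symm (A.next I.flag ρ t v 0,
            Function.update (E u).2 a (some (⟨t, by omega⟩, v))) := by
        intro ans
        unfold simAlg
        dsimp only
        rw [ih1, hq]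
        dsimp only
        rw [dif_pos (show t < D by omega)]
      rw [hnext, hrun, Equiv.apply_symm_apply]
      refine ⟨rfl, fun a' => ?_⟩
      by_cases ha : a' = a
      · subst ha
        dsimp only
        rw [Function.update_self, Function.update_self]
        unfold polyOf
        dsimp only
        rw [hq]
      · dsimp only
        rw [Function.update_of_ne ha, Function.update_of_ne ha]
        exact ih2 a'
    | copy a b =>
      have hrun : regRun A I ρ (t + 1) =
          (A.next I.flag ρ t v 0,
            Function.update (regRun A I ρ t).2 a ((regRun A I ρ t).2 b)) := by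
        rw [regRun, ← hv, hq]
      have hnext : ∀ ans, (simAlg A he E).next I.flag ρ t u ans =
          E.symm (A.next I.flag ρ t v 0, Function.update (E u).2 a ((E u).2 b)) := by
        intro ans
        unfold simAlg
        dsimp only
        rw [ih1, hq]
      rw [hnext, hrun, Equiv.apply_symm_apply]
      refine ⟨rfl, fun a' => ?_⟩
      by_cases ha : a' = a
      · subst ha
        dsimp only
        rw [Function.update_self, Function.update_self]
        exact ih2 b
      · dsimp only
        rw [Function.update_of_ne ha, Function.update_of_ne ha]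
        exact ih2 a'
    | zero P hP =>
      have hrun : regRun A I ρ (t + 1) =
          (A.next I.flag ρ t v
            (if MvPolynomial.eval (Sum.elim (fun c : Fin n × Fin n => (I.wt c.1 c.2 : ℝ))
              (regRun A I ρ t).2) P = 0 then 0 else 1), (regRun A I ρ t).2) := by
        rw [regRun, ← hv, hq]
      have hask : (simAlg A he E).ask I.flag ρ t u =
          .zero (compP A I.flag ρ (E u).2 P) (totalDegree_compP A he I.flag ρ (E u).2 P hP) := by
        unfold simAlg
        dsimp only
        rw [ih1, hq]
      have hnext : ∀ ans, (simAlg A he E).next I.flag ρ t u ans =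
          E.symm (A.next I.flag ρ t v ans, (E u).2) := by
        intro ans
        unfold simAlg
        dsimp only
        rw [ih1, hq]
      rw [hask, hnext, hrun, Equiv.apply_symm_apply]
      refine ⟨?_, ih2⟩
      show A.next I.flag ρ t v (if evalP (compP A I.flag ρ (E u).2 P) I = 0 then 0 else 1) = _
      rw [evalP_compP A I ρ (E u).2 P _ ih2]

theorem simAlg_decides (A : Alg n D W R (RegQ n s K C d e r) SignType) (he : 1 ≤ e)
    (hA : RegDecides A) {W' : ℕ} (E : Fin W' ≃ Fin W × Hist D W r) :
    (simAlg A he E).Decides (mixFam n s K C (d * e)) := by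
  classical
  intro I hI
  refine (hA I hI).trans (Nat.mul_le_mul_left _ (le_of_eq ?_))
  congr 1
  apply filter_congr
  intro ρ _
  have h1 := (simAlg_state A he E I ρ D le_rfl).1
  have h2 : (simAlg A he E).output (mixFam n s K C (d * e)) I ρ =
      A.out I.flag ρ (regRun A I ρ D).1 := by
    rw [← h1]
    rfl
  rw [h2]

end Pool.Agent.Helper8.ZT
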