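import Pool.Agent.Helper8.ZT.Run

set_option autoImplicit false

/-!
# Exceptional answers of zero tests are rare
-/

namespace Pool.Agent.Helper8.ZT

open Finset
open Pool.Agent.Helper22.ETModel Pool.Agent.Helper22.TSModel Pool.Agent.Helper22.EP
open Pool.Agent.Helper23.SP

variable {n m s K C d D W R k b U N : ℕ} [NeZero b]

open Classical in
/-- The answer in the generic run, when the answers to all sign queries are given by `a`. -/
noncomputable def ansA (h : 3 * m ≤ n) (a : SparseQ n s K C → SignType) :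
    MixQ n s K C d → SignType
  | .sign q => a q
  | .zero f _ => if ∀ y, pev h f y = 0 then 0 else 1

/-- The state in the generic run, when the answers to all sign queries are given by `a`. -/
noncomputable def fstA (A : Alg n D W R (MixQ n s K C d) SignType) (h : 3 * m ≤ n)
    (ρ : Fin R → Bool) (a : SparseQ n s K C → SignType) : ℕ → Fin W
  | 0 => A.init (flagOf h) ρ
  | t + 1 => A.next (flagOf h) ρ t (fstA A h ρ a t)
      (ansA h a (A.ask (flagOf h) ρ t (fstA A h ρ a t)))

/-- The answers to all sign queries. -/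
noncomputable def sgv (h : 3 * m ≤ n) (L Y : ℕ) (mu : Fin U → ℕ) (ω : Om (E m) k b U)
    (tiny : E m → ℤ) (q : SparseQ n s K C) : SignType :=
  SignType.sign (q.val (instOf h (wgt L Y mu ω tiny)))

lemma fst_eq_fstA (A : Alg n D W R (MixQ n s K C d) SignType) (h : 3 * m ≤ n) (L Y : ℕ)
    (mu : Fin U → ℕ) (ω : Om (E m) k b U) (tiny : E m → ℤ) (ρ : Fin R → Bool) (t : ℕ) :
    fst A h L Y mu ω tiny ρ t = fstA A h ρ (sgv h L Y mu ω tiny) t := by
  induction t with
  | zero => rfl
  | succ t ih =>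
    show A.next _ _ _ _ _ = A.next _ _ _ _ _
    rw [ih]
    congr 1

/-- On a line there are few different vectors of signs. -/
lemma line_signs (h : 3 * m ≤ n) (L Y : ℕ) (mu : Fin U → ℕ) (ω : Om (E m) k b U)
    (tiny : Fin (N + 1) → E m → ℤ) (u v : E m → ℤ)
    (htiny : ∀ c e, tiny c e = u e + v e * ((c : ℕ) : ℤ)) :
    ∃ S : Finset (SparseQ n s K C → SignType),
      S.card ≤ 2 * ((n ^ 2 * (2 * K + 1)) ^ s * (2 * C + 1)) + 1 ∧
      ∀ c, sgv h L Y mu ω (tiny c) ∈ S := by
  obtain ⟨inst, hcard⟩ := exists_fintype_sparse n s K C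
  obtain ⟨S, hS, hmem⟩ := signs_card (Q := SparseQ n s K C) N
    (fun q => q.const + ∑ e, qcoef h q e * value L Y mu ω u e)
    (fun q => ∑ e, qcoef h q e * v e)
  refine ⟨S, hS.trans (by omega), ?_⟩
  intro c
  convert hmem c using 1
  funext q
  unfold sgv
  congr 1
  have e1 : q.val (instOf h (wgt L Y mu ω (tiny c))) =
      q.const + ∑ e, qcoef h q e * value L Y mu ω (tiny c) e :=
    Pc.val_inst h q (value L Y mu ω (tiny c))
  rw [e1, add_assoc, sum_mul, ← sum_add_distrib]
  congr 1
  apply sum_congr rfl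
  intro e _
  unfold value
  rw [htiny]
  ring

open Classical in
/-- The polynomial in the query number `t`, when the answers to all sign queries are given by `a`
(zero for sign queries). -/
noncomputable def phi (A : Alg n D W R (MixQ n s K C d) SignType) (h : 3 * m ≤ n)
    (ρ : Fin R → Bool) (t : ℕ) (a : SparseQ n s K C → SignType) (y : E m → ℝ) : ℝ :=
  match A.ask (flagOf h) ρ t (fstA A h ρ a t) with
  | .sign _ => 0
  | .zero f _ => pev h f y

lemma lineOK_zero {ι : Type} (d : ℕ) : LineOK (fun _ : ι → ℝ => (0 : ℝ)) d :=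
  fun _ _ => Or.inl fun _ => rfl

lemma lineOK_phi (A : Alg n D W R (MixQ n s K C d) SignType) (h : 3 * m ≤ n)
    (ρ : Fin R → Bool) (t : ℕ) (a : SparseQ n s K C → SignType) : LineOK (phi A h ρ t a) d := by
  have key : ∀ Q : MixQ n s K C d, LineOK (fun y : E m → ℝ =>
      (match Q with
      | .sign _ => (0 : ℝ)
      | .zero f _ => pev h f y)) d := by
    intro Q
    cases Q with
    | sign q => exact lineOK_zero d
    | zero f hf => exact lineOK_pev h f hf
  exact key _

lemma phi_of_zero (A : Alg n D W R (MixQ n s K C d) SignType) (h : 3 * m ≤ n)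
    (ρ : Fin R → Bool) (t : ℕ) (a : SparseQ n s K C → SignType)
    {f : MvPolynomial (Fin n × Fin n) ℝ} {hf : f.totalDegree ≤ d}
    (hq : A.ask (flagOf h) ρ t (fstA A h ρ a t) = .zero f hf) (y : E m → ℝ) :
    phi A h ρ t a y = pev h f y := by
  unfold phi
  rw [hq]

/-- The fixed part of the values. -/
noncomputable def fixv (L Y : ℕ) (mu : Fin U → ℕ) (ω : Om (E m) k b U) (e : E m) : ℝ :=
  ((value L Y mu ω (fun e => if e.1 = 0 then 1 else 0) e : ℤ) : ℝ)

lemma value_tinyN (L Y : ℕ) (mu : Fin U → ℕ) (ω : Om (E m) k b U) (ν : E m → Fin (N + 1))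
    (e : E m) : ((value L Y mu ω (tinyN ν) e : ℤ) : ℝ) =
      fixv L Y mu ω e + 2 * ((ν e : ℕ) : ℝ) := by
  unfold fixv value tinyN
  push_cast
  ring

lemma value_tinyQ (L Y : ℕ) (mu : Fin U → ℕ) (ω : Om (E m) k b U) (ν : E m → Fin (N + 1))
    {e0 e1 : E m} (h1 : e1.1 = 1) (hg : ∀ r : Fin k, g r ω e0 = g r ω e1) (e : E m) :
    ((value L Y mu ω (tinyQ ν e0 e1) e : ℤ) : ℝ) =
      Function.update (fun e => fixv L Y mu ω e + 2 * ((ν e : ℕ) : ℝ)) e0
        (fixv L Y mu ω e1 + 2 * ((ν e1 : ℕ) : ℝ)) e := by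
  by_cases he : e = e0
  · subst he
    rw [Function.update_self]
    unfold fixv value tinyQ
    have h2 : ¬ e1.1 = 0 := by rw [h1]; decide
    simp only [hg, if_neg h2]
    push_cast
    simp
  · rw [Function.update_of_ne he, ← value_tinyN]
    congr 1
    unfold value tinyQ
    rw [if_neg he]

open Classical in
/-- Exceptional answers are rare in the basic instance. -/
theorem card_badN_le (A : Alg n D W R (MixQ n s K C d) SignType) (h : 3 * m ≤ n) (L Y : ℕ)
    (mu : Fin U → ℕ) (ω : Om (E m) k b U) (ρ : Fin R → Bool) :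
    (univ.filter (fun ν : E m → Fin (N + 1) => badN A h L Y mu ω ρ ν)).card * (N + 1) ≤
      D * (Fintype.card (E m) * ((2 * ((n ^ 2 * (2 * K + 1)) ^ s * (2 * C + 1)) + 1) * d) *
        Fintype.card (E m → Fin (N + 1))) := by
  have hsub : univ.filter (fun ν : E m → Fin (N + 1) => badN A h L Y mu ω ρ ν) ⊆
      (range D).biUnion (fun t => univ.filter (fun ν : E m → Fin (N + 1) =>
        (∃ y, phi A h ρ t (sgv h L Y mu ω (tinyN ν)) y ≠ 0) ∧
        phi A h ρ t (sgv h L Y mu ω (tinyN ν))
          (fun e => fixv L Y mu ω e + 2 * ((ν e : ℕ) : ℝ)) = 0)) := by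
    intro ν hν
    obtain ⟨t, ht, f, hf, hq, hex, hz⟩ := (mem_filter.1 hν).2
    rw [fst_eq_fstA] at hq
    rw [mem_biUnion]
    refine ⟨t, mem_range.2 ht, mem_filter.2 ⟨mem_univ _, ?_, ?_⟩⟩
    · obtain ⟨y, hy⟩ := hex
      exact ⟨y, by rw [phi_of_zero A h ρ t _ hq]; exact hy⟩
    · rw [phi_of_zero A h ρ t _ hq, ← hz]
      congr 1
      funext e
      rw [value_tinyN]
  refine (Nat.mul_le_mul_right _ ((card_le_card hsub).trans card_biUnion_le)).trans ?_
  rw [sum_mul]
  refine (sum_le_card_nsmul _ _ _ ?_).trans (by rw [card_range, smul_eq_mul])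
  intro t _
  apply adaptive_sz N (2 * ((n ^ 2 * (2 * K + 1)) ^ s * (2 * C + 1)) + 1) d
    (fun ν => sgv h L Y mu ω (tinyN ν)) _ (phi A h ρ t) (lineOK_phi A h ρ t) (fixv L Y mu ω)
  · intro ν hν
    exact (mem_filter.1 hν).2
  · intro j ν
    apply line_signs h L Y mu ω (fun c => tinyN (Function.update ν j c))
      (fun e => if e = j then (if e.1 = 0 then 1 else 0) else tinyN ν e)
      (fun e => if e = j then 2 else 0)
    intro c e
    by_cases he : e = j
    · subst he
      unfold tinyN
      rw [Function.update_self, if_pos rfl, if_pos rfl]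
      ring
    · unfold tinyN
      rw [Function.update_of_ne he, if_neg he, if_neg he]
      ring

open Classical in
/-- Exceptional answers are rare in the planted instance. -/
theorem card_badQ_le (A : Alg n D W R (MixQ n s K C d) SignType) (h : 3 * m ≤ n) (L Y : ℕ)
    (mu : Fin U → ℕ) (ω : Om (E m) k b U) (ρ : Fin R → Bool) {e0 e1 : E m} (h0 : e0.1 = 0)
    (h1 : e1.1 = 1) (hg : ∀ r : Fin k, g r ω e0 = g r ω e1) :
    (univ.filter (fun ν : E m → Fin (N + 1) => badQ A h L Y mu ω ρ e0 e1 ν)).card * (N + 1) ≤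
      D * (Fintype.card (E m) * ((2 * ((n ^ 2 * (2 * K + 1)) ^ s * (2 * C + 1)) + 1) * d) *
        Fintype.card (E m → Fin (N + 1))) := by
  have hne : e1 ≠ e0 := by
    intro he
    rw [he, h0] at h1
    exact absurd h1 (by decide)
  have hsub : univ.filter (fun ν : E m → Fin (N + 1) => badQ A h L Y mu ω ρ e0 e1 ν) ⊆
      (range D).biUnion (fun t => univ.filter (fun ν : E m → Fin (N + 1) =>
        (∃ y, (fun a y => phi A h ρ t a (Function.update y e0 (y e1)))
          (sgv h L Y mu ω (tinyQ ν e0 e1)) y ≠ 0) ∧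
        (fun a y => phi A h ρ t a (Function.update y e0 (y e1)))
          (sgv h L Y mu ω (tinyQ ν e0 e1))
          (fun e => fixv L Y mu ω e + 2 * ((ν e : ℕ) : ℝ)) = 0)) := by
    intro ν hν
    obtain ⟨t, ht, f, hf, hq, hex, hz⟩ := (mem_filter.1 hν).2
    rw [fst_eq_fstA] at hq
    rw [mem_biUnion]
    refine ⟨t, mem_range.2 ht, mem_filter.2 ⟨mem_univ _, ?_, ?_⟩⟩
    · obtain ⟨y, hy⟩ := hex
      refine ⟨y, ?_⟩
      show phi A h ρ t _ _ ≠ 0
      rw [phi_of_zero A h ρ t _ hq]; exact hy
    · show phi A h ρ t _ _ = 0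
      rw [phi_of_zero A h ρ t _ hq, ← hz]
      congr 1
      funext e
      rw [value_tinyQ L Y mu ω ν h1 hg]
  refine (Nat.mul_le_mul_right _ ((card_le_card hsub).trans card_biUnion_le)).trans ?_
  rw [sum_mul]
  refine (sum_le_card_nsmul _ _ _ ?_).trans (by rw [card_range, smul_eq_mul])
  intro t _
  apply adaptive_sz N (2 * ((n ^ 2 * (2 * K + 1)) ^ s * (2 * C + 1)) + 1) d
    (fun ν => sgv h L Y mu ω (tinyQ ν e0 e1)) _
    (fun a y => phi A h ρ t a (Function.update y e0 (y e1)))
    (fun a => lineOK_update (lineOK_phi A h ρ t a) e0 e1) (fixv L Y mu ω)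
  · intro ν hν
    exact (mem_filter.1 hν).2
  · intro j ν
    apply line_signs h L Y mu ω (fun c => tinyQ (Function.update ν j c) e0 e1)
      (fun e => if e = e0 then (if e1 = j then 0 else 2 * ((ν e1 : ℕ) : ℤ))
        else if e = j then (if e.1 = 0 then 1 else 0) else tinyN ν e)
      (fun e => if e = e0 then (if e1 = j then 2 else 0) else if e = j then 2 else 0)
    intro c e
    by_cases he0 : e = e0
    · subst he0
      unfold tinyQ
      rw [if_pos rfl, if_pos rfl, if_pos rfl]
      by_cases he1 : e1 = j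
      · subst he1
        rw [Function.update_self, if_pos rfl, if_pos rfl]
        ring
      · rw [Function.update_of_ne he1, if_neg he1, if_neg he1]
        ring
    · unfold tinyQ tinyN
      rw [if_neg he0, if_neg he0, if_neg he0]
      by_cases he : e = j
      · subst he
        rw [Function.update_self, if_pos rfl, if_pos rfl]
        ring
      · rw [Function.update_of_ne he, if_neg he, if_neg he]
        ring

end Pool.Agent.Helper8.ZT
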