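import Pool.Agent.Helper8.ZT.Trans
import Pool.Agent.Helper23.SP.Main2

set_option autoImplicit false

/-!
# The main bound for sign queries and zero tests
-/

namespace Pool.Agent.Helper8.ZT

open Finset
open Pool.Agent.Helper22.ETModel Pool.Agent.Helper22.TSModel Pool.Agent.Helper22.EP
open Pool.Agent.Helper23.SP

variable {n m s K C d D W R N : ℕ}

/-- The quadratic bound. -/
theorem trivial_bound3 (h : 3 * m ≤ n) (hm : 1 ≤ m) (hs : 1 ≤ s) (hK : 1 ≤ K) {k s' T : ℕ}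
    (hk : 1 ≤ k)
    (hsz : (3 * s * K) ^ ((s + 1) * k) * n ^ (2 * s) * (C + s * K * (2 * N + 1) + 1) ≤ n ^ 300)
    (hss : s ≤ s') (hs2 : d ≠ 0 → 2 ≤ s') (hT : 1 ≤ T) (hdT : d ≤ T)
    (hsmall : 24 * m ^ 2 * (D * (Fintype.card (E m) *
      ((2 * ((n ^ 2 * (2 * K + 1)) ^ s * (2 * C + 1)) + 1) * d))) < N + 1)
    (A : Alg n D W R (MixQ n s K C d) SignType) (hA : A.Decides (mixFam n s K C d)) :
    m ^ 2 ≤ 6 * s' * (D * T) := by
  classical
  obtain ⟨mu, hmuM, hmu⟩ := Pc.exists_mu (1 ^ 2) s (s * K)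
  have hsz' : (3 * s * K) ^ ((s + 1) * k) * n ^ (2 * s) * (C + s * K * (2 * N) + s * K + 1) ≤
      n ^ 300 := by
    rw [show C + s * K * (2 * N) + s * K + 1 = C + s * K * (2 * N + 1) + 1 by ring]
    exact hsz
  have hr := size_ok (C := C + s * K * (2 * N)) (k' := 1) (b := 1) hs hK hk
    (by simpa using (show 1 ≤ n by omega)) hsz' le_rfl
  have key := transferN (k := 1) (b := 1) (N := N) h hs hK (by simpa using hm) (Y := s * K *
    (1 ^ 2 * (2 * (s * K) + 1)) ^ s + 1) hmu hmuM (by omega)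
    (L := C + s * K * (2 * N) + s * K + 1) (le_of_eq (by ring)) hr hT hdT hsmall (by norm_num) A hA
  set L := C + s * K * (2 * N) + s * K + 1 with hLdef
  set Y := s * K * (1 ^ 2 * (2 * (s * K) + 1)) ^ s + 1
  have hOK : ∀ (ρ : Fin R → Bool) (ν : E m → Fin (N + 1)),
      (procN (k := 1) (b := 1) A h L Y mu ρ ν T).OK s' :=
    fun ρ ν => procN_ok A h hmu hmuM (by omega) (le_of_eq (by rw [hLdef]; ring)) ρ ν T hss hs2
  have hle : ∑ ω : Om (E m) 1 1 (1 ^ 2), ∑ ν : E m → Fin (N + 1), ∑ ρ,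
      (rvN A h L Y mu T ω ν ρ).card ≤
      s' * (D * T) * (2 ^ R * (Fintype.card (Om (E m) 1 1 (1 ^ 2)) *
        Fintype.card (E m → Fin (N + 1)))) := by
    calc ∑ ω : Om (E m) 1 1 (1 ^ 2), ∑ ν : E m → Fin (N + 1), ∑ ρ,
        (rvN A h L Y mu T ω ν ρ).card
        ≤ ∑ _ω : Om (E m) 1 1 (1 ^ 2), ∑ _ν : E m → Fin (N + 1),
          ∑ _ρ : Fin R → Bool, s' * (D * T) := by
          apply sum_le_sum
          intro ω _
          apply sum_le_sum
          intro ν _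
          apply sum_le_sum
          intro ρ _
          exact (rvN_card_le A h L Y mu T ω ν ρ).trans (rev_card_le (hOK ρ ν) ω 0 _ (D * T) 1)
      _ = _ := by
          rw [sum_const, sum_const, sum_const, card_univ, card_univ, card_univ,
            Fintype.card_fun (α := Fin R), Fintype.card_bool, Fintype.card_fin, smul_eq_mul,
            smul_eq_mul, smul_eq_mul]
          ring
  have hpos : 0 < 2 ^ R * (Fintype.card (Om (E m) 1 1 (1 ^ 2)) *
      Fintype.card (E m → Fin (N + 1))) := by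
    apply Nat.mul_pos (by positivity)
    apply Nat.mul_pos
    · apply Fintype.card_pos_iff.2
      exact ⟨(fun _ _ => 0, fun _ _ => 0)⟩
    · exact Fintype.card_pos_iff.2 ⟨fun _ => 0⟩
  set P := 2 ^ R * (Fintype.card (Om (E m) 1 1 (1 ^ 2)) * Fintype.card (E m → Fin (N + 1)))
  have h1 : 2 * m ^ 2 * P < (12 * (s' * (D * T)) + 1) * P := by
    calc 2 * m ^ 2 * P < 12 * (∑ ω : Om (E m) 1 1 (1 ^ 2), ∑ ν : E m → Fin (N + 1), ∑ ρ,
          (rvN A h L Y mu T ω ν ρ).card) + P := key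
      _ ≤ 12 * (s' * (D * T) * P) + P := Nat.add_le_add_right (Nat.mul_le_mul_left _ hle) _
      _ = _ := by ring
  have h2 := Nat.lt_of_mul_lt_mul_right h1
  have h3 : 12 * (s' * (D * T)) = 2 * (6 * s' * (D * T)) := by ring
  omega

/-- The main bound, before the choice of the parameters. -/
theorem main_bound3 (h : 3 * m ≤ n) (hs : 1 ≤ s) (hK : 1 ≤ K) {k x β t l r0 Nw s' T : ℕ}
    (hsz : (3 * s * K) ^ ((s + 1) * k) * n ^ (2 * s) * x ^ (s * k) *
      (C + s * K * (2 * N + 1) + 1) ≤ n ^ 300)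
    (hss : s ≤ s') (hs2 : d ≠ 0 → 2 ≤ s') (hT : 1 ≤ T) (hdT : d ≤ T)
    (hsmall : 24 * m ^ 2 * (D * (Fintype.card (E m) *
      ((2 * ((n ^ 2 * (2 * K + 1)) ^ s * (2 * C + 1)) + 1) * d))) < N + 1)
    (hβ : 1 ≤ β) (ht : 1 ≤ t) (hl1 : 1 ≤ l) (hl : s' * l ≤ x) (hbk : (60 * β * t) ^ k ≤ m)
    (ht2 : 2 * m ≤ 2 ^ t) (hr0 : r0 ≤ k) (hr01 : 20 * x * β ≤ (60 * β * t) ^ r0)
    (hN : D * T ≤ Nw * (l * β ^ (k - r0))) (hN' : Nw * (l * β ^ (k - r0)) ≤ D * T + m)
    (hx : 12 * (2 * (D * T + m) * W * k) ≤ 2 ^ x)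
    (A : Alg n D W R (MixQ n s K C d) SignType) (hA : A.Decides (mixFam n s K C d)) :
    m ^ 2 ≤ 72 * x * Nw := by
  classical
  have hs'1 : 1 ≤ s' := hs.trans hss
  have hx1 : 1 ≤ x := le_trans (Nat.mul_pos hs'1 hl1) hl
  obtain ⟨b, hb⟩ : ∃ b, b = 60 * β * t := ⟨_, rfl⟩
  have hb1 : 1 ≤ b := by
    rw [hb]; exact Nat.mul_pos (Nat.mul_pos (by omega) hβ) ht
  have : NeZero b := ⟨by omega⟩
  rw [← hb] at hbk hr01
  obtain ⟨mu, hmuM, hmu⟩ := Pc.exists_mu (b ^ 2 * x) s (s * K)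
  have hsz' : (3 * s * K) ^ ((s + 1) * k) * n ^ (2 * s) * x ^ (s * k) *
      (C + s * K * (2 * N) + s * K + 1) ≤ n ^ 300 := by
    rw [show C + s * K * (2 * N) + s * K + 1 = C + s * K * (2 * N + 1) + 1 by ring]
    exact hsz
  have hr := size_ok2 (C := C + s * K * (2 * N)) (k := k) (b := b) hs hK
    (hbk.trans (by omega)) hx1 hsz' hb1
  have hU : 1 ≤ b ^ 2 * x := Nat.mul_pos (Nat.pow_pos hb1) hx1
  have key := transferN (k := k) (b := b) (N := N) h hs hK hbk (Y := s * K *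
    (b ^ 2 * x * (2 * (s * K) + 1)) ^ s + 1) hmu hmuM (by omega)
    (L := C + s * K * (2 * N) + s * K + 1) (le_of_eq (by ring)) hr hT hdT hsmall hU A hA
  set L := C + s * K * (2 * N) + s * K + 1 with hLdef
  set Y := s * K * (b ^ 2 * x * (2 * (s * K) + 1)) ^ s + 1
  have hOK : ∀ (ρ : Fin R → Bool) (ν : E m → Fin (N + 1)),
      (procN (k := k) (b := b) A h L Y mu ρ ν T).OK s' :=
    fun ρ ν => procN_ok A h hmu hmuM (by omega) (le_of_eq (by rw [hLdef]; ring)) ρ ν T hss hs2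
  set Ωc := Fintype.card (Om (E m) k b (b ^ 2 * x)) with hΩc
  set Nc := Fintype.card (E m → Fin (N + 1)) with hNc
  -- one random string
  have hone : ∀ (ρ : Fin R → Bool) (ν : E m → Fin (N + 1)),
      2 * ∑ ω : Om (E m) k b (b ^ 2 * x), (rvN A h L Y mu T ω ν ρ).card * 6 ≤
      Ωc * (72 * x * Nw + m ^ 2) := by
    intro ρ ν
    obtain ⟨Bad, hBad, hgood⟩ := F8.window_main2 (procN (k := k) (b := b) A h L Y mu ρ ν T)
      (hOK ρ ν) (T := D * T + m) hx1 hβ ht hl hb rfl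
      (le_trans (Nat.mul_le_mul_left 2 hbk) ht2) hr0 hr01
    have hBad12 : 12 * Bad.card ≤ Ωc := by
      have h2 : 0 < 2 ^ x := by positivity
      apply Nat.le_of_mul_le_mul_right _ h2
      calc 12 * Bad.card * 2 ^ x = 12 * (Bad.card * 2 ^ x) := by ring
        _ ≤ 12 * (2 * (D * T + m) * W * k * Ωc) := Nat.mul_le_mul_left _ hBad
        _ = 12 * (2 * (D * T + m) * W * k) * Ωc := by ring
        _ ≤ 2 ^ x * Ωc := Nat.mul_le_mul_right _ hx
        _ = Ωc * 2 ^ x := by ring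
    have hcard : ∀ ω : Om (E m) k b (b ^ 2 * x), (rvN A h L Y mu T ω ν ρ).card ≤
        6 * x * Nw + (if ω ∈ Bad then m ^ 2 else 0) := by
      intro ω
      by_cases hω : ω ∈ Bad
      · rw [if_pos hω]
        exact (rvN_card_le' A h L Y mu T ω ν ρ).trans (Nat.le_add_left _ _)
      · rw [if_neg hω, Nat.add_zero]
        refine (rvN_card_le A h L Y mu T ω ν ρ).trans ?_
        refine (card_le_card (rev_mono _ ω 0 _ hN le_rfl)).trans ?_
        have := rev_mul_card (procN (k := k) (b := b) A h L Y mu ρ ν T) ω 0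
          (A.init (flagOf h) ρ) Nw (l * β ^ (k - r0)) k (6 * x) (by
            intro j hj
            apply hgood ω hω
            have h3 : (j + 1) * (l * β ^ (k - r0)) ≤ Nw * (l * β ^ (k - r0)) :=
              Nat.mul_le_mul_right _ hj
            have h4 : (j + 1) * (l * β ^ (k - r0)) =
              j * (l * β ^ (k - r0)) + l * β ^ (k - r0) := by ring
            omega)
        calc _ ≤ Nw * (6 * x) := this
          _ = 6 * x * Nw := by ring
    have hsum : ∑ ω : Om (E m) k b (b ^ 2 * x), (rvN A h L Y mu T ω ν ρ).card ≤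
        Ωc * (6 * x * Nw) + Bad.card * m ^ 2 := by
      refine (sum_le_sum (fun ω _ => hcard ω)).trans ?_
      rw [sum_add_distrib, sum_const, card_univ, smul_eq_mul, Finset.sum_ite_mem, univ_inter,
        sum_const, smul_eq_mul]
    rw [← sum_mul]
    calc 2 * ((∑ ω : Om (E m) k b (b ^ 2 * x), (rvN A h L Y mu T ω ν ρ).card) * 6)
        ≤ 2 * ((Ωc * (6 * x * Nw) + Bad.card * m ^ 2) * 6) :=
          Nat.mul_le_mul_left _ (Nat.mul_le_mul_right _ hsum)
      _ = Ωc * (72 * x * Nw) + (12 * Bad.card) * m ^ 2 := by ring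
      _ ≤ Ωc * (72 * x * Nw) + Ωc * m ^ 2 :=
          Nat.add_le_add_left (Nat.mul_le_mul_right _ hBad12) _
      _ = Ωc * (72 * x * Nw + m ^ 2) := by ring
  have hpos : 0 < 2 ^ R * (Ωc * Nc) := by
    apply Nat.mul_pos (by positivity)
    apply Nat.mul_pos
    · apply Fintype.card_pos_iff.2
      exact ⟨(fun _ _ => 0, fun _ _ => ⟨0, by positivity⟩)⟩
    · exact Fintype.card_pos_iff.2 ⟨fun _ => 0⟩
  have htot : 2 * m ^ 2 * (2 ^ R * (Ωc * Nc)) < (72 * x * Nw + m ^ 2 + 1) * (2 ^ R * (Ωc * Nc)) := by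
    calc 2 * m ^ 2 * (2 ^ R * (Ωc * Nc))
        < 12 * (∑ ω : Om (E m) k b (b ^ 2 * x), ∑ ν : E m → Fin (N + 1), ∑ ρ,
          (rvN A h L Y mu T ω ν ρ).card) + 2 ^ R * (Ωc * Nc) := key
      _ = (∑ ν : E m → Fin (N + 1), ∑ ρ : Fin R → Bool,
          2 * ∑ ω : Om (E m) k b (b ^ 2 * x), (rvN A h L Y mu T ω ν ρ).card * 6) +
          2 ^ R * (Ωc * Nc) := by
          congr 1
          rw [sum_comm, mul_sum]
          apply sum_congr rfl
          intro ν _
          rw [sum_comm, mul_sum]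
          apply sum_congr rfl
          intro ρ _
          rw [← sum_mul]
          ring
      _ ≤ (∑ _ν : E m → Fin (N + 1), ∑ _ρ : Fin R → Bool, Ωc * (72 * x * Nw + m ^ 2)) +
          2 ^ R * (Ωc * Nc) := Nat.add_le_add_right
            (sum_le_sum (fun ν _ => sum_le_sum (fun ρ _ => hone ρ ν))) _
      _ = (72 * x * Nw + m ^ 2 + 1) * (2 ^ R * (Ωc * Nc)) := by
          rw [sum_const, sum_const, card_univ, card_univ, Fintype.card_fun (α := Fin R),
            Fintype.card_bool, Fintype.card_fin, smul_eq_mul, smul_eq_mul, ← hNc]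
          ring
  have := Nat.lt_of_mul_lt_mul_right htot
  omega

end Pool.Agent.Helper8.ZT
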