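import Pool.Agent.Helper8.ZT.Adapt
import Pool.Agent.Helper5.ZT.Tiny
import Pool.Agent.Helper20.ZT.Signs
import Pool.Agent.Helper50.ZT.Lines
import Pool.Agent.Helper23.SP.Pieces

set_option autoImplicit false

/-!
# The pieces of project ZT
-/

namespace Pool.Agent.Helper8.ZT

export Pool.Agent.Helper5.ZT (sign_part_B inst_valid_B base_no_N plant_yes_N)
export Pool.Agent.Helper20.ZT (signs_card exists_fintype_sparse)
export Pool.Agent.Helper50.ZT (lineOK_pev lineOK_update card_cov_le card_covp_le)

end Pool.Agent.Helper8.ZT
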