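import Pool.Agent.Helper8.ZT.Pieces

set_option autoImplicit false

/-!
# The process of an algorithm with sign queries and zero tests
-/

namespace Pool.Agent.Helper8.ZT

open Finset
open Pool.Agent.Helper22.ETModel Pool.Agent.Helper22.TSModel Pool.Agent.Helper22.EP
open Pool.Agent.Helper23.SP

variable {n m s K C d D W R k b U N : ℕ} [NeZero b]

/-- The coefficient vector of a pair. -/
def pvec (p : E m × E m) (e : E m) : ℤ := (if e = p.1 then 1 else 0) - (if e = p.2 then 1 else 0)

open Classical in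
/-- The answer in the generic run: zero tests are answered by `0` only if the polynomial vanishes
identically. -/
noncomputable def fans (h : 3 * m ≤ n) (L Y : ℕ) (mu : Fin U → ℕ) (ω : Om (E m) k b U)
    (tiny : E m → ℤ) : MixQ n s K C d → SignType
  | .sign q => SignType.sign (q.val (instOf h (wgt L Y mu ω tiny)))
  | .zero f _ => if ∀ y, pev h f y = 0 then 0 else 1

/-- The state in the generic run. -/
noncomputable def fst (A : Alg n D W R (MixQ n s K C d) SignType) (h : 3 * m ≤ n) (L Y : ℕ)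
    (mu : Fin U → ℕ) (ω : Om (E m) k b U) (tiny : E m → ℤ) (ρ : Fin R → Bool) : ℕ → Fin W
  | 0 => A.init (flagOf h) ρ
  | t + 1 => A.next (flagOf h) ρ t (fst A h L Y mu ω tiny ρ t)
      (fans h L Y mu ω tiny (A.ask (flagOf h) ρ t (fst A h L Y mu ω tiny ρ t)))

/-- The coefficient vector of part `i` (of `T` parts) of a query. -/
noncomputable def gam (h : 3 * m ≤ n) (T i : ℕ) : MixQ n s K C d → E m → ℤ
  | .sign q => if i + 1 = T then qcoef h q else 0
  | .zero f _ => match (covp h f).toList[i]? with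
    | some p => pvec p
    | none => 0

/-- The process of an algorithm with fixed random bits and fixed noise; every query is divided into
`T` parts. -/
noncomputable def procN (A : Alg n D W R (MixQ n s K C d) SignType) (h : 3 * m ≤ n) (L Y : ℕ)
    (mu : Fin U → ℕ) (ρ : Fin R → Bool) (ν : E m → Fin (N + 1)) (T : ℕ) :
    Proc (E m) k b U (Fin W) where
  γ t v := gam h T (t % T) (A.ask (flagOf h) ρ (t / T) v)
  nx t v ω := if t % T + 1 = T then A.next (flagOf h) ρ (t / T) v
    (fans h L Y mu ω (tinyN ν) (A.ask (flagOf h) ρ (t / T) v)) else v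

lemma tinyN_bound (ν : E m → Fin (N + 1)) (e : E m) :
    0 ≤ tinyN ν e ∧ tinyN ν e ≤ ((2 * N + 1 : ℕ) : ℤ) := by
  have h1 := (ν e).isLt
  unfold tinyN
  split_ifs <;> constructor <;> push_cast <;> omega

lemma tinyQ_bound (ν : E m → Fin (N + 1)) (e0 e1 e : E m) :
    0 ≤ tinyQ ν e0 e1 e ∧ tinyQ ν e0 e1 e ≤ ((2 * N + 1 : ℕ) : ℤ) := by
  have h1 := (ν e1).isLt
  unfold tinyQ
  split_ifs
  · constructor <;> push_cast <;> omega
  · exact tinyN_bound ν e

lemma tinyN_abs (ν : E m → Fin (N + 1)) (e : E m) : |tinyN ν e| ≤ ((2 * N + 1 : ℕ) : ℤ) := by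
  rw [abs_of_nonneg (tinyN_bound ν e).1]; exact (tinyN_bound ν e).2

lemma tinyQ_abs (ν : E m → Fin (N + 1)) (e0 e1 e : E m) :
    |tinyQ ν e0 e1 e| ≤ ((2 * N + 1 : ℕ) : ℤ) := by
  rw [abs_of_nonneg (tinyQ_bound ν e0 e1 e).1]; exact (tinyQ_bound ν e0 e1 e).2

lemma supp_zero : supp (0 : E m → ℤ) = ∅ := by
  unfold supp
  rw [filter_eq_empty_iff]
  intro e _
  simp

lemma card_supp_pvec (p : E m × E m) : (supp (pvec p)).card ≤ 2 := by
  have hsub : supp (pvec p) ⊆ {p.1, p.2} := by
    intro e he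
    rw [mem_supp] at he
    rw [mem_insert, mem_singleton]
    by_contra hcon
    push Not at hcon
    apply he
    unfold pvec
    rw [if_neg hcon.1, if_neg hcon.2, sub_zero]
  exact (card_le_card hsub).trans card_le_two

lemma pass_pvec {p : E m × E m} {ω : Om (E m) k b U} (hg : ∀ r : Fin k, g r ω p.1 = g r ω p.2)
    (r : ℕ) : Pass (pvec p) ω r := by
  intro i _ u
  unfold pvec
  rw [sum_sub_distrib, sum_ite_eq', sum_ite_eq']
  have h1 : (p.1 ∈ univ.filter (fun e => g i ω e = u)) ↔
      (p.2 ∈ univ.filter (fun e => g i ω e = u)) := by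
    rw [mem_filter, mem_filter, hg i]
    simp
  by_cases h2 : p.1 ∈ univ.filter (fun e => g i ω e = u)
  · rw [if_pos h2, if_pos (h1.1 h2), sub_self]
  · rw [if_neg h2, if_neg (fun h3 => h2 (h1.2 h3)), sub_self]

/-- Signs of queries that do not pass level `r`. -/
lemma sign_wgt_N (h : 3 * m ≤ n) {L Y M B : ℕ} {mu : Fin U → ℕ} (hmu : Free mu s (s * K))
    (hM : ∀ u, mu u ≤ M) (hY : s * K * M < Y) (hL : C + s * K * B + 1 ≤ L) (q : SparseQ n s K C)
    {ω ω' : Om (E m) k b U} {r : ℕ} (hP : ¬ Pass (qcoef h q) ω r)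
    (hg : ∀ i : Fin k, i.val < r → ∀ e ∈ supp (qcoef h q), g i ω e = g i ω' e)
    {tiny tiny' : E m → ℤ} (ht : ∀ e, |tiny e| ≤ (B : ℤ)) (ht' : ∀ e, |tiny' e| ≤ (B : ℤ)) :
    SignType.sign (q.val (instOf h (wgt L Y mu ω tiny))) =
      SignType.sign (q.val (instOf h (wgt L Y mu ω' tiny'))) := by
  have e1 : ∀ (ω : Om (E m) k b U) (tiny : E m → ℤ), q.val (instOf h (wgt L Y mu ω tiny)) =
      q.const + ∑ e, qcoef h q e * value L Y mu ω tiny e := fun ω tiny =>
    Pc.val_inst h q (value L Y mu ω tiny)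
  rw [e1, e1]
  apply sign_part_B (B := B) hmu hM hY (Pc.card_supp_qcoef h q) _ _ hP hg ht ht'
  · have := Pc.sum_qcoef h q
    push_cast
    exact_mod_cast this
  · have h1 := q.const_le
    have h2 : ((C + s * K * B + 1 : ℕ) : ℤ) ≤ (L : ℤ) := by exact_mod_cast hL
    push_cast at h2 ⊢
    linarith

/-- The part of a sign query. -/
lemma gam_sign (h : 3 * m ≤ n) (T i : ℕ) (q : SparseQ n s K C) :
    gam (d := d) h T i (.sign q) = if i + 1 = T then qcoef h q else 0 := rfl

lemma gam_zero_supp (h : 3 * m ≤ n) (T i : ℕ) (f : MvPolynomial (Fin n × Fin n) ℝ)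
    (hf : f.totalDegree ≤ d) : (supp (gam (s := s) (K := K) (C := C) h T i (.zero f hf))).card ≤
      if d = 0 then 0 else 2 := by
  unfold gam
  cases hl : (covp h f).toList[i]? with
  | none =>
    simp only [hl]
    rw [supp_zero]
    simp
  | some p =>
    simp only [hl]
    have hlen : i < (covp h f).toList.length := by
      by_contra hcon
      rw [List.getElem?_eq_none (by omega)] at hl
      exact absurd hl (by simp)
    rw [length_toList] at hlen
    have h1 := card_covp_le h f hf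
    rw [if_neg (by omega)]
    exact card_supp_pvec p

lemma procN_ok (A : Alg n D W R (MixQ n s K C d) SignType) (h : 3 * m ≤ n) {L Y M : ℕ}
    {mu : Fin U → ℕ} (hmu : Free mu s (s * K)) (hM : ∀ u, mu u ≤ M) (hY : s * K * M < Y)
    (hL : C + s * K * (2 * N + 1) + 1 ≤ L) (ρ : Fin R → Bool) (ν : E m → Fin (N + 1)) (T : ℕ)
    {s' : ℕ} (hs : s ≤ s') (hs' : d ≠ 0 → 2 ≤ s') :
    (procN (k := k) (b := b) A h L Y mu ρ ν T).OK s' where
  card_le t v := by
    show (supp (gam h T (t % T) (A.ask (flagOf h) ρ (t / T) v))).card ≤ s'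
    cases A.ask (flagOf h) ρ (t / T) v with
    | sign q =>
      rw [gam_sign]
      split_ifs
      · exact (Pc.card_supp_qcoef h q).trans hs
      · rw [supp_zero]; simp
    | zero f hf =>
      refine (gam_zero_supp h T _ f hf).trans ?_
      split_ifs with h0
      · omega
      · exact hs' h0
  full t v ω ω' hg := by
    show (if t % T + 1 = T then _ else v) = if t % T + 1 = T then _ else v
    split_ifs with hT
    · change ∀ i : Fin k, ∀ e ∈ supp (gam h T (t % T) (A.ask (flagOf h) ρ (t / T) v)),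
        g i ω e = g i ω' e at hg
      generalize A.ask (flagOf h) ρ (t / T) v = Q at hg
      cases Q with
      | sign q =>
        rw [gam_sign, if_pos hT] at hg
        congr 1
        show SignType.sign (q.val _) = SignType.sign (q.val _)
        have e1 : ∀ (ω : Om (E m) k b U) (tiny : E m → ℤ),
          q.val (instOf h (wgt L Y mu ω tiny)) =
          q.const + ∑ e, qcoef h q e * value L Y mu ω tiny e := fun ω tiny =>
          Pc.val_inst h q (value L Y mu ω tiny)
        rw [e1, e1]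
        congr 2
        apply sum_congr rfl
        intro e _
        by_cases he : qcoef h q e = 0
        · rw [he]; simp
        · have he' : e ∈ supp (qcoef h q) := mem_supp.2 he
          congr 1
          unfold value
          congr 2
          apply sum_congr rfl
          intro i _
          rw [hg i e he']
      | zero f hf => rfl
    · rfl
  part t v ω ω' r hP hg := by
    show (if t % T + 1 = T then _ else v) = if t % T + 1 = T then _ else v
    split_ifs with hT
    · change ¬ Pass (gam h T (t % T) (A.ask (flagOf h) ρ (t / T) v)) ω r at hP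
      change ∀ i : Fin k, i.val < r →
        ∀ e ∈ supp (gam h T (t % T) (A.ask (flagOf h) ρ (t / T) v)), g i ω e = g i ω' e at hg
      generalize A.ask (flagOf h) ρ (t / T) v = Q at hg hP
      cases Q with
      | sign q =>
        rw [gam_sign, if_pos hT] at hg hP
        congr 1
        exact sign_wgt_N h hmu hM hY hL _ hP hg (tinyN_abs ν) (tinyN_abs ν)
      | zero f hf => rfl
    · rfl

/-- Between the last parts of two queries the state does not change. -/
lemma st_part (A : Alg n D W R (MixQ n s K C d) SignType) (h : 3 * m ≤ n) (L Y : ℕ)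
    (mu : Fin U → ℕ) (ρ : Fin R → Bool) (ν : E m → Fin (N + 1)) {T : ℕ} (ω : Om (E m) k b U)
    (t : ℕ) (v : Fin W) (i : ℕ) (hi : i < T) :
    (procN (k := k) (b := b) A h L Y mu ρ ν T).st ω (t * T) v i = v := by
  induction i with
  | zero => rfl
  | succ i ih =>
    rw [st_succ, ih (by omega)]
    show (if (t * T + i) % T + 1 = T then _ else v) = v
    rw [if_neg]
    rw [mul_comm, Nat.mul_add_mod, Nat.mod_eq_of_lt (by omega)]
    omega

/-- The process simulates the generic run. -/
lemma st_mul (A : Alg n D W R (MixQ n s K C d) SignType) (h : 3 * m ≤ n) (L Y : ℕ)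
    (mu : Fin U → ℕ) (ρ : Fin R → Bool) (ν : E m → Fin (N + 1)) {T : ℕ} (hT : 1 ≤ T)
    (ω : Om (E m) k b U) (t : ℕ) :
    (procN (k := k) (b := b) A h L Y mu ρ ν T).st ω 0 (A.init (flagOf h) ρ) (t * T) =
      fst A h L Y mu ω (tinyN ν) ρ t := by
  induction t with
  | zero => rw [Nat.zero_mul]; rfl
  | succ t ih =>
    have e1 : (t + 1) * T = t * T + (T - 1 + 1) := by
      rw [Nat.sub_add_cancel hT]; ring
    rw [e1, st_add, ih, st_succ, Nat.zero_add, st_part A h L Y mu ρ ν ω t _ (T - 1) (by omega)]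
    show (if (t * T + (T - 1)) % T + 1 = T then _ else _) = _
    have e2 : (t * T + (T - 1)) % T = T - 1 := by
      rw [mul_comm, Nat.mul_add_mod, Nat.mod_eq_of_lt (by omega)]
    have e3 : (t * T + (T - 1)) / T = t := by
      rw [mul_comm, Nat.mul_add_div (by omega), Nat.div_eq_of_lt (by omega), Nat.add_zero]
    rw [if_pos (by rw [e2]; omega), e3]
    rfl

/-- The state inside a block. -/
lemma st_mul_add (A : Alg n D W R (MixQ n s K C d) SignType) (h : 3 * m ≤ n) (L Y : ℕ)
    (mu : Fin U → ℕ) (ρ : Fin R → Bool) (ν : E m → Fin (N + 1)) {T : ℕ} (hT : 1 ≤ T)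
    (ω : Om (E m) k b U) (t i : ℕ) (hi : i < T) :
    (procN (k := k) (b := b) A h L Y mu ρ ν T).st ω 0 (A.init (flagOf h) ρ) (t * T + i) =
      fst A h L Y mu ω (tinyN ν) ρ t := by
  rw [st_add, st_mul A h L Y mu ρ ν hT ω t, Nat.zero_add]
  exact st_part A h L Y mu ρ ν ω t _ i hi

lemma gam_at (A : Alg n D W R (MixQ n s K C d) SignType) (h : 3 * m ≤ n) (L Y : ℕ)
    (mu : Fin U → ℕ) (ρ : Fin R → Bool) (ν : E m → Fin (N + 1)) {T : ℕ} (hT : 1 ≤ T)
    (ω : Om (E m) k b U) (t i : ℕ) (hi : i < T) :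
    (procN (k := k) (b := b) A h L Y mu ρ ν T).γ (0 + (t * T + i))
      ((procN (k := k) (b := b) A h L Y mu ρ ν T).st ω 0 (A.init (flagOf h) ρ) (t * T + i)) =
      gam h T i (A.ask (flagOf h) ρ t (fst A h L Y mu ω (tinyN ν) ρ t)) := by
  rw [st_mul_add A h L Y mu ρ ν hT ω t i hi, Nat.zero_add]
  show gam h T ((t * T + i) % T) (A.ask (flagOf h) ρ ((t * T + i) / T) _) = _
  have e2 : (t * T + i) % T = i := by
    rw [mul_comm, Nat.mul_add_mod, Nat.mod_eq_of_lt hi]
  have e3 : (t * T + i) / T = t := by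
    rw [mul_comm, Nat.mul_add_div (by omega), Nat.div_eq_of_lt hi, Nat.add_zero]
  rw [e2, e3]

/-- Elements of sign queries that pass all levels are revealed. -/
lemma rev_of_sign (A : Alg n D W R (MixQ n s K C d) SignType) (h : 3 * m ≤ n) (L Y : ℕ)
    (mu : Fin U → ℕ) (ρ : Fin R → Bool) (ν : E m → Fin (N + 1)) {T : ℕ} (hT : 1 ≤ T)
    (ω : Om (E m) k b U) {t : ℕ} (ht : t < D) {q : SparseQ n s K C}
    (hq : A.ask (flagOf h) ρ t (fst A h L Y mu ω (tinyN ν) ρ t) = .sign q)
    (hP : Pass (qcoef h q) ω k) {e : E m} (he : qcoef h q e ≠ 0) :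
    e ∈ (procN (k := k) (b := b) A h L Y mu ρ ν T).rev ω 0 (A.init (flagOf h) ρ) (D * T) k := by
  rw [mem_rev]
  refine ⟨t * T + (T - 1), ?_, ?_, ?_⟩
  · calc t * T + (T - 1) < t * T + T := by omega
      _ = (t + 1) * T := by ring
      _ ≤ D * T := Nat.mul_le_mul_right _ ht
  · rw [gam_at A h L Y mu ρ ν hT ω t (T - 1) (by omega), hq, gam_sign, if_pos (by omega)]
    exact hP
  · rw [gam_at A h L Y mu ρ ν hT ω t (T - 1) (by omega), hq, gam_sign, if_pos (by omega)]
    exact mem_supp.2 he

/-- Covered pairs of mates are revealed. -/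
lemma rev_of_zero (A : Alg n D W R (MixQ n s K C d) SignType) (h : 3 * m ≤ n) (L Y : ℕ)
    (mu : Fin U → ℕ) (ρ : Fin R → Bool) (ν : E m → Fin (N + 1)) {T : ℕ} (hT : 1 ≤ T)
    (hdT : d ≤ T) (ω : Om (E m) k b U) {t : ℕ} (ht : t < D)
    {f : MvPolynomial (Fin n × Fin n) ℝ} {hf : f.totalDegree ≤ d}
    (hq : A.ask (flagOf h) ρ t (fst A h L Y mu ω (tinyN ν) ρ t) = .zero f hf)
    {p : E m × E m} (hp : p ∈ covp h f) (hg : ∀ r : Fin k, g r ω p.1 = g r ω p.2) :
    p.1 ∈ (procN (k := k) (b := b) A h L Y mu ρ ν T).rev ω 0 (A.init (flagOf h) ρ) (D * T) k := by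
  obtain ⟨i, hi, hpi⟩ := List.getElem_of_mem (mem_toList.2 hp)
  have hlen : i < d := by
    rw [length_toList] at hi
    exact lt_of_lt_of_le hi (card_covp_le h f hf)
  have hgam : gam (s := s) (K := K) (C := C) h T i (.zero f hf) = pvec p := by
    show (match (covp h f).toList[i]? with
      | some p => pvec p
      | none => 0) = pvec p
    rw [List.getElem?_eq_getElem hi, hpi]
  have hne : p.1 ≠ p.2 := by
    have h1 : p.1.1 = 0 ∧ p.2.1 = 1 := by
      classical
      unfold covp at hp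
      split_ifs at hp with h0
      · simp at hp
      · exact ⟨(mem_filter.1 hp).2.1, (mem_filter.1 hp).2.2.1⟩
    intro h2
    rw [h2] at h1
    rw [h1.2] at h1
    exact absurd h1.1 (by decide)
  rw [mem_rev]
  refine ⟨t * T + i, ?_, ?_, ?_⟩
  · calc t * T + i < t * T + T := by omega
      _ = (t + 1) * T := by ring
      _ ≤ D * T := Nat.mul_le_mul_right _ ht
  · rw [gam_at A h L Y mu ρ ν hT ω t i (by omega), hq, hgam]
    exact pass_pvec hg k
  · rw [gam_at A h L Y mu ρ ν hT ω t i (by omega), hq, hgam, mem_supp]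
    unfold pvec
    rw [if_pos rfl, if_neg hne]
    decide

end Pool.Agent.Helper8.ZT
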