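import Mathlib
import Pool.Agent.Helper22.TSModel
import Pool.Agent.Helper23.SP.Defs

set_option autoImplicit false

/-!
# Algorithms with small memory and real registers

Definitions only.
-/

namespace Pool.Agent.Helper8.ZT

open Pool.Agent.Helper22.ETModel Pool.Agent.Helper22.TSModel
open Pool.Agent.Helper23.SP (SparseQ)

/-- The operations of an algorithm with `r` real registers:
`sign q` asks for the sign of a sparse integer affine form in the weights;
`load a f` stores in the register `a` the value of the polynomial `f` with real coefficients and
total degree at most `e` in all the weights;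
`copy a b` stores in the register `a` the content of the register `b`;
`zero P` asks whether the polynomial `P` with real coefficients and total degree at most `d` in
all the weights and all the registers vanishes. -/
inductive RegQ (n s K C d e r : ℕ)
  | sign (q : SparseQ n s K C)
  | load (a : Fin r) (f : MvPolynomial (Fin n × Fin n) ℝ) (hf : f.totalDegree ≤ e)
  | copy (a b : Fin r)
  | zero (P : MvPolynomial ((Fin n × Fin n) ⊕ Fin r) ℝ) (hP : P.totalDegree ≤ d)

variable {n D W R s K C d e r : ℕ}

open Classical in
/-- The memory state and the contents of the registers after `t` operations. A sign query is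
answered by the sign, a zero test by `0` if the polynomial vanishes and by `1` otherwise; the
answer to a load or copy is always `0`. In the beginning all registers contain `0`. -/
noncomputable def regRun (A : Alg n D W R (RegQ n s K C d e r) SignType) (I : Inst n)
    (ρ : Fin R → Bool) : ℕ → Fin W × (Fin r → ℝ)
  | 0 => (A.init I.flag ρ, fun _ => 0)
  | t + 1 =>
    match A.ask I.flag ρ t (regRun A I ρ t).1 with
    | .sign q =>
      (A.next I.flag ρ t (regRun A I ρ t).1 (SignType.sign (q.val I)), (regRun A I ρ t).2)
    | .load a f _ =>
      (A.next I.flag ρ t (regRun A I ρ t).1 0, Function.update (regRun A I ρ t).2 a (evalP f I))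
    | .copy a b =>
      (A.next I.flag ρ t (regRun A I ρ t).1 0,
        Function.update (regRun A I ρ t).2 a ((regRun A I ρ t).2 b))
    | .zero P _ =>
      (A.next I.flag ρ t (regRun A I ρ t).1
        (if MvPolynomial.eval (Sum.elim (fun c : Fin n × Fin n => (I.wt c.1 c.2 : ℝ))
          (regRun A I ρ t).2) P = 0 then 0 else 1), (regRun A I ρ t).2)

open Classical in
/-- The algorithm with registers decides Exact Triangle with bounded error: on every valid
instance the output after `D` operations is correct with probability at least `2/3`. -/
def RegDecides (A : Alg n D W R (RegQ n s K C d e r) SignType) : Prop :=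
  ∀ I : Inst n, I.Valid →
    2 * 2 ^ R ≤ 3 * (Finset.univ.filter fun ρ : Fin R → Bool =>
      (A.out I.flag ρ (regRun A I ρ D).1 = true ↔ I.Yes)).card

end Pool.Agent.Helper8.ZT
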