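import Pool.Agent.Helper8.ZT.RegSim
import Pool.Agent.Helper8.ZT.Final
import Pool.Agent.Helper7.ZT.Asym3

set_option autoImplicit false

/-!
# The bounds for algorithms with real registers
-/

namespace Pool.Agent.Helper8.ZT

open Finset
open Pool.Agent.Helper22.ETModel Pool.Agent.Helper22.TSModel Pool.Agent.Helper22.EP

theorem quantitative4 {n s K C d e r N D W R : ℕ} (hn : 3 ≤ n) (hs : 1 ≤ s) (hK : 1 ≤ K)
    {k x : ℕ} (hk : 1 ≤ k) (he : 1 ≤ e) (hsx : s ≤ x)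
    (hWx : 16 * n ^ 4 * (W * (D * W + 1) ^ r) ≤ 2 ^ x)
    (hN : d ≠ 0 → 3 * n ^ (2 * s + 7) * (2 * K + 1) ^ s * (2 * C + 1) ≤ N)
    (hsz : (3 * s * K) ^ (2 * (s + 1) * k) * x ^ (2 * s * k) * n ^ (2 * s) *
      (C + s * K * (2 * N + 1) + 1) ≤ n ^ 300)
    (A : Alg n D W R (RegQ n s K C d e r) SignType) (hA : RegDecides A) :
    (n : ℝ) ^ (3 - 1 / (k : ℝ)) ≤
      (2 ^ 13 * Real.logb 2 n) ^ (2 * k) * s * x * (2 * (d * e) + 1) * D := by
  have E : Fin (W * (D * W + 1) ^ r) ≃ Fin W × Hist D W r :=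
    Fintype.equivOfCardEq (by rw [Fintype.card_fin, card_hist])
  have key := quantitative3 (d := d * e) (N := N) hn hs hK hk hsx hWx
    (fun hde => hN (fun h0 => hde (by rw [h0, Nat.zero_mul]))) hsz (simAlg A he E)
    (simAlg_decides A he hA E)
  push_cast at key
  exact key

/-- The number of bits of the simulating algorithm. -/
lemma log_states {n D W r : ℕ} (hn : 1 ≤ n) (hW : 1 ≤ W) (hD : D ≤ n ^ 3) :
    Real.logb 2 ((W * (D * W + 1) ^ r : ℕ) : ℝ) ≤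
      (r + 1) * Real.logb 2 W + r * (1 + 3 * Real.logb 2 n) := by
  have hW0 : (0 : ℝ) < W := by exact_mod_cast hW
  have hn0 : (0 : ℝ) < n := by exact_mod_cast hn
  have h1 : ((D * W + 1 : ℕ) : ℝ) ≤ 2 * (n : ℝ) ^ 3 * W := by
    have h2 : D * W + 1 ≤ 2 * n ^ 3 * W := by
      have h3 : D * W ≤ n ^ 3 * W := Nat.mul_le_mul_right _ hD
      have h4 : 1 ≤ n ^ 3 * W := Nat.mul_pos (Nat.pow_pos hn) hW
      calc D * W + 1 ≤ n ^ 3 * W + n ^ 3 * W := Nat.add_le_add h3 h4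
        _ = 2 * n ^ 3 * W := by ring
    exact_mod_cast h2
  have h5 : Real.logb 2 ((D * W + 1 : ℕ) : ℝ) ≤ 1 + 3 * Real.logb 2 n + Real.logb 2 W := by
    calc Real.logb 2 ((D * W + 1 : ℕ) : ℝ) ≤ Real.logb 2 (2 * (n : ℝ) ^ 3 * W) :=
          Real.logb_le_logb_of_le (by norm_num) (by positivity) h1
      _ = 1 + 3 * Real.logb 2 n + Real.logb 2 W := by
          rw [Real.logb_mul (by positivity) (by positivity),
            Real.logb_mul (by norm_num) (by positivity), Real.logb_pow,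
            Real.logb_self_eq_one (by norm_num)]
          push_cast
          ring
  have h6 : ((W * (D * W + 1) ^ r : ℕ) : ℝ) = (W : ℝ) * ((D * W + 1 : ℕ) : ℝ) ^ r := by
    push_cast
    ring
  rw [h6, Real.logb_mul (by positivity) (by positivity), Real.logb_pow]
  have h7 : (r : ℝ) * Real.logb 2 ((D * W + 1 : ℕ) : ℝ) ≤
      r * (1 + 3 * Real.logb 2 n + Real.logb 2 W) :=
    mul_le_mul_of_nonneg_left h5 (Nat.cast_nonneg r)
  linarith

open Filter Topology in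
theorem asymptotic4 (s c : ℕ) (hs : 1 ≤ s) (σ ε : ℝ) (hσ : 0 ≤ σ) (hε : 0 < ε)
    (hgap : 2 * (s : ℝ) + c + 2 * s * σ * (1 / ε + 1) < 300) :
    ∃ δ : ℝ, 0 < δ ∧ ∃ n₀ : ℕ, ∀ n : ℕ, n₀ ≤ n → ∀ K d e r D W R : ℕ, 1 ≤ K → 1 ≤ e →
      (K : ℝ) ≤ (n : ℝ) ^ δ → (d : ℝ) ≤ (n : ℝ) ^ δ → (e : ℝ) ≤ (n : ℝ) ^ δ →
      (d = 0 ∨ 4 * (s : ℝ) + c + 7 + 2 * s * σ * (1 / ε + 1) < 300) →
      (r : ℝ) ≤ (n : ℝ) ^ σ → (r + 1) * Real.logb 2 W ≤ (n : ℝ) ^ σ →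
      ∀ A : Alg n D W R (RegQ n s K (n ^ c) d e r) SignType, RegDecides A →
        (n : ℝ) ^ (3 - ε) ≤ D * ((r + 1) * (1 + Real.logb 2 W)) := by
  -- a little room
  have hcont : ContinuousAt (fun τ : ℝ => 2 * (s : ℝ) * (σ + τ) * (1 / (ε - τ) + 1)) 0 := by
    have h1 : ε - 0 ≠ 0 := by simpa using hε.ne'
    fun_prop (disch := exact h1)
  have hval : (fun τ : ℝ => 2 * (s : ℝ) * (σ + τ) * (1 / (ε - τ) + 1)) 0 =
      2 * s * σ * (1 / ε + 1) := by simp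
  have ev1 : ∀ᶠ τ in 𝓝 (0 : ℝ), 2 * (s : ℝ) + c + 2 * s * (σ + τ) * (1 / (ε - τ) + 1) < 300 := by
    have h2 : (fun τ : ℝ => 2 * (s : ℝ) * (σ + τ) * (1 / (ε - τ) + 1)) 0 <
        300 - 2 * (s : ℝ) - c := by rw [hval]; linarith
    filter_upwards [hcont.eventually_lt continuousAt_const h2] with τ hτ
    linarith
  have ev2 : ∀ᶠ τ in 𝓝 (0 : ℝ), 4 * (s : ℝ) + c + 7 + 2 * s * σ * (1 / ε + 1) < 300 →
      4 * (s : ℝ) + c + 7 + 2 * s * (σ + τ) * (1 / (ε - τ) + 1) < 300 := by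
    by_cases h3 : 4 * (s : ℝ) + c + 7 + 2 * s * σ * (1 / ε + 1) < 300
    · have h2 : (fun τ : ℝ => 2 * (s : ℝ) * (σ + τ) * (1 / (ε - τ) + 1)) 0 <
          300 - 4 * (s : ℝ) - c - 7 := by rw [hval]; linarith
      filter_upwards [hcont.eventually_lt continuousAt_const h2] with τ hτ _
      linarith
    · exact Eventually.of_forall (fun τ h4 => absurd h4 h3)
  have ev3 : ∀ᶠ τ in 𝓝 (0 : ℝ), τ < ε := eventually_lt_nhds hε
  have ev : ∀ᶠ τ in 𝓝[>] (0 : ℝ), (2 * (s : ℝ) + c + 2 * s * (σ + τ) * (1 / (ε - τ) + 1) < 300 ∧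
      (4 * (s : ℝ) + c + 7 + 2 * s * σ * (1 / ε + 1) < 300 →
        4 * (s : ℝ) + c + 7 + 2 * s * (σ + τ) * (1 / (ε - τ) + 1) < 300) ∧ τ < ε) ∧ 0 < τ := by
    filter_upwards [(ev1.and (ev2.and ev3)).filter_mono nhdsWithin_le_nhds,
      self_mem_nhdsWithin] with τ h1 h2
    exact ⟨h1, h2⟩
  obtain ⟨τ, ⟨hg1, hg2, hτε⟩, hτ0⟩ := ev.exists
  obtain ⟨δ0, hδ0, n0, hmain⟩ := Pool.Agent.Helper7.ZT.asymptotic3_of
    (fun _ _ _ _ _ _ _ _ _ _ _ hn hs hK hk hsx hWx hN hsz A hA =>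
      quantitative3 hn hs hK hk hsx hWx hN hsz A hA) s c hs (σ + τ) (ε - τ) (by linarith)
      (by linarith) hg1
  refine ⟨δ0 / 2, by linarith, ?_⟩
  obtain ⟨n1, hn1⟩ : ∃ n1 : ℕ, (2 + 12 / τ) ^ (2 / τ) ≤ (n1 : ℝ) := exists_nat_ge _
  refine ⟨max (max n0 n1) 3, ?_⟩
  intro n hn K d e r D W R hK he hKn hdn hen hd hrn hWn A hA
  have hnn0 : n0 ≤ n := (le_max_left _ _).trans ((le_max_left _ _).trans hn)
  have hnn1 : n1 ≤ n := (le_max_right _ _).trans ((le_max_left _ _).trans hn)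
  have hn3 : 3 ≤ n := (le_max_right _ _).trans hn
  have hn1r : (1 : ℝ) ≤ n := by exact_mod_cast (show 1 ≤ n by omega)
  have hn0r : (0 : ℝ) < n := by linarith
  have hD0 : (0 : ℝ) ≤ D := Nat.cast_nonneg D
  have hr0 : (0 : ℝ) ≤ r := Nat.cast_nonneg r
  have hW : 1 ≤ W := by
    have h1 := (A.init (fun _ _ => false) (fun _ => false)).isLt
    omega
  have hW1 : (1 : ℝ) ≤ W := by exact_mod_cast hW
  have hlogW : 0 ≤ Real.logb 2 W := Real.logb_nonneg (by norm_num) hW1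
  have hlogn : 0 ≤ Real.logb 2 n := Real.logb_nonneg (by norm_num) hn1r
  have hfac : (1 : ℝ) ≤ (r + 1) * (1 + Real.logb 2 W) := by nlinarith [mul_nonneg hr0 hlogW]
  -- many queries
  by_cases hD : n ^ 3 < D
  · calc (n : ℝ) ^ (3 - ε) ≤ (n : ℝ) ^ (3 : ℝ) :=
          Real.rpow_le_rpow_of_exponent_le hn1r (by linarith)
      _ = ((n ^ 3 : ℕ) : ℝ) := by push_cast; norm_cast
      _ ≤ D := by exact_mod_cast hD.le
      _ ≤ D * ((r + 1) * (1 + Real.logb 2 W)) := le_mul_of_one_le_right hD0 hfac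
  push Not at hD
  -- the logarithm is small
  have hnt : 2 + 3 * Real.logb 2 n ≤ (n : ℝ) ^ τ := by
    have h1 : Real.logb 2 n ≤ 2 / (τ / 2) * (n : ℝ) ^ (τ / 2) :=
      Pool.Agent.Helper23.SP.logb_le hn0r (by linarith)
    have h2 : 2 + 12 / τ ≤ (n : ℝ) ^ (τ / 2) := by
      have h3 : (2 + 12 / τ) ^ (2 / τ) ≤ (n : ℝ) := hn1.trans (by exact_mod_cast hnn1)
      have h4 : (0 : ℝ) ≤ 2 + 12 / τ := by positivity
      calc 2 + 12 / τ = ((2 + 12 / τ) ^ (2 / τ)) ^ (τ / 2) := by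
            rw [← Real.rpow_mul h4]
            have : 2 / τ * (τ / 2) = 1 := by field_simp
            rw [this, Real.rpow_one]
        _ ≤ (n : ℝ) ^ (τ / 2) := Real.rpow_le_rpow (by positivity) h3 (by linarith)
    have h5 : (n : ℝ) ^ τ = (n : ℝ) ^ (τ / 2) * (n : ℝ) ^ (τ / 2) := by
      rw [← Real.rpow_add hn0r]; ring_nf
    have h6 : 1 ≤ (n : ℝ) ^ (τ / 2) := Real.one_le_rpow hn1r (by linarith)
    rw [h5]
    calc 2 + 3 * Real.logb 2 n ≤ 2 * (n : ℝ) ^ (τ / 2) + 3 * (2 / (τ / 2) * (n : ℝ) ^ (τ / 2)) := by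
          linarith
      _ = (2 + 12 / τ) * (n : ℝ) ^ (τ / 2) := by
          field_simp
          ring
      _ ≤ (n : ℝ) ^ (τ / 2) * (n : ℝ) ^ (τ / 2) := mul_le_mul_of_nonneg_right h2 (by linarith)
  -- the simulating algorithm
  have E : Fin (W * (D * W + 1) ^ r) ≃ Fin W × Hist D W r :=
    Fintype.equivOfCardEq (by rw [Fintype.card_fin, card_hist])
  have hls := log_states (r := r) (by omega : 1 ≤ n) hW hD
  have hlog' : Real.logb 2 ((W * (D * W + 1) ^ r : ℕ) : ℝ) ≤ (n : ℝ) ^ (σ + τ) := by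
    refine hls.trans ?_
    rw [Real.rpow_add hn0r]
    have h1 : (r : ℝ) * (1 + 3 * Real.logb 2 n) ≤ (n : ℝ) ^ σ * (1 + 3 * Real.logb 2 n) :=
      mul_le_mul_of_nonneg_right hrn (by linarith)
    have h2 : 0 ≤ (n : ℝ) ^ σ := by positivity
    calc (r + 1) * Real.logb 2 W + r * (1 + 3 * Real.logb 2 n)
        ≤ (n : ℝ) ^ σ * (2 + 3 * Real.logb 2 n) := by linarith
      _ ≤ (n : ℝ) ^ σ * (n : ℝ) ^ τ := mul_le_mul_of_nonneg_left hnt h2
  have hnδ : (n : ℝ) ^ (δ0 / 2) * (n : ℝ) ^ (δ0 / 2) = (n : ℝ) ^ δ0 := by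
    rw [← Real.rpow_add hn0r]; ring_nf
  have key := hmain n hnn0 K (d * e) D (W * (D * W + 1) ^ r) R hK
    (hKn.trans (Real.rpow_le_rpow_of_exponent_le hn1r (by linarith)))
    (by
      push_cast
      rw [← hnδ]
      exact mul_le_mul hdn hen (by positivity) (by positivity))
    (by
      rcases hd with h0 | h1
      · left; rw [h0, Nat.zero_mul]
      · right; exact hg2 h1)
    hlog' (simAlg A he E) (simAlg_decides A he hA E)
  -- conclusion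
  have h1 : 1 + Real.logb 2 ((W * (D * W + 1) ^ r : ℕ) : ℝ) ≤
      ((r + 1) * (1 + Real.logb 2 W)) * (n : ℝ) ^ τ := by
    have h2 : 1 + ((r + 1) * Real.logb 2 W + r * (1 + 3 * Real.logb 2 n)) ≤
        ((r + 1) * (1 + Real.logb 2 W)) * (2 + 3 * Real.logb 2 n) := by
      have h3 : 0 ≤ r * Real.logb 2 W := mul_nonneg hr0 hlogW
      have h4 : 0 ≤ Real.logb 2 W * Real.logb 2 n := mul_nonneg hlogW hlogn
      have h5 : 0 ≤ r * Real.logb 2 W * Real.logb 2 n := mul_nonneg h3 hlogn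
      nlinarith
    calc 1 + Real.logb 2 ((W * (D * W + 1) ^ r : ℕ) : ℝ)
        ≤ 1 + ((r + 1) * Real.logb 2 W + r * (1 + 3 * Real.logb 2 n)) := by linarith
      _ ≤ ((r + 1) * (1 + Real.logb 2 W)) * (2 + 3 * Real.logb 2 n) := h2
      _ ≤ _ := mul_le_mul_of_nonneg_left hnt (by linarith)
  have h2 : (n : ℝ) ^ (3 - ε) * (n : ℝ) ^ τ ≤
      (D * ((r + 1) * (1 + Real.logb 2 W))) * (n : ℝ) ^ τ := by
    calc (n : ℝ) ^ (3 - ε) * (n : ℝ) ^ τ = (n : ℝ) ^ (3 - (ε - τ)) := by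
          rw [← Real.rpow_add hn0r]; ring_nf
      _ ≤ D * (1 + Real.logb 2 ((W * (D * W + 1) ^ r : ℕ) : ℝ)) := key
      _ ≤ D * (((r + 1) * (1 + Real.logb 2 W)) * (n : ℝ) ^ τ) :=
          mul_le_mul_of_nonneg_left h1 hD0
      _ = _ := by ring
  exact le_of_mul_le_mul_right h2 (by positivity)

end Pool.Agent.Helper8.ZT
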