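import Pool.Agent.Helper8.ZT.Proc

set_option autoImplicit false

/-!
# Generic runs and real runs
-/

namespace Pool.Agent.Helper8.ZT

open Finset
open Pool.Agent.Helper22.ETModel Pool.Agent.Helper22.TSModel Pool.Agent.Helper22.EP
open Pool.Agent.Helper23.SP

variable {n m s K C d D W R k b U N : ℕ} [NeZero b]

/-- The value of a polynomial on an instance with given values of the elements. -/
lemma evalP_wgt (h : 3 * m ≤ n) (L Y : ℕ) (mu : Fin U → ℕ) (ω : Om (E m) k b U) (tiny : E m → ℤ)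
    (f : MvPolynomial (Fin n × Fin n) ℝ) :
    evalP f (instOf h (wgt L Y mu ω tiny)) =
      pev h f (fun e => (value L Y mu ω tiny e : ℝ)) := by
  rw [evalP_instOf]
  unfold pev wgt
  congr 2
  funext e
  push_cast
  rfl

lemma pev_zero_ans (h : 3 * m ≤ n) (L Y : ℕ) (mu : Fin U → ℕ) (ω : Om (E m) k b U)
    (tiny : E m → ℤ) (f : MvPolynomial (Fin n × Fin n) ℝ) (hf : f.totalDegree ≤ d)
    (hne : (∃ y, pev h f y ≠ 0) → pev h f (fun e => (value L Y mu ω tiny e : ℝ)) ≠ 0) :
    (mixFam n s K C d).ans (.zero f hf) (instOf h (wgt L Y mu ω tiny)) =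
      fans (s := s) (K := K) (C := C) h L Y mu ω tiny (.zero f hf) := by
  classical
  show (if evalP f _ = 0 then (0 : SignType) else 1) = if ∀ y, pev h f y = 0 then 0 else 1
  rw [evalP_wgt]
  by_cases h0 : ∀ y, pev h f y = 0
  · rw [if_pos (h0 _), if_pos h0]
  · rw [if_neg (hne (by push Not at h0; exact h0)), if_neg h0]

/-- The real run follows the generic run if no zero test gives an exceptional answer. -/
lemma state_eq (A : Alg n D W R (MixQ n s K C d) SignType) (h : 3 * m ≤ n) (L Y : ℕ)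
    (mu : Fin U → ℕ) (ω : Om (E m) k b U) (tiny : E m → ℤ) (ρ : Fin R → Bool)
    (hne : ∀ t < D, ∀ f hf, A.ask (flagOf h) ρ t (fst A h L Y mu ω tiny ρ t) = .zero f hf →
      (∃ y, pev h f y ≠ 0) → pev h f (fun e => (value L Y mu ω tiny e : ℝ)) ≠ 0)
    (t : ℕ) (ht : t ≤ D) :
    A.state (mixFam n s K C d) (instOf h (wgt L Y mu ω tiny)) ρ t =
      fst A h L Y mu ω tiny ρ t := by
  induction t with
  | zero => rfl
  | succ t ih =>
    show A.next _ _ _ _ _ = A.next _ _ _ _ _
    rw [ih (by omega)]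
    show A.next (flagOf h) ρ t _ _ = A.next (flagOf h) ρ t _ _
    congr 1
    show (mixFam n s K C d).ans (A.ask (flagOf h) ρ t _) _ = _
    have h1 := hne t (by omega)
    generalize A.ask (flagOf h) ρ t (fst A h L Y mu ω tiny ρ t) = Q at h1
    cases Q with
    | sign q => rfl
    | zero f hf => exact pev_zero_ans h L Y mu ω tiny f hf (h1 f hf rfl)

/-- The planted change is not noticed in the generic run if `e0` is not revealed. -/
lemma fst_plant (A : Alg n D W R (MixQ n s K C d) SignType) (h : 3 * m ≤ n) {L Y M : ℕ}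
    {mu : Fin U → ℕ} (hmu : Free mu s (s * K)) (hM : ∀ u, mu u ≤ M) (hY : s * K * M < Y)
    (hL : C + s * K * (2 * N + 1) + 1 ≤ L) (ρ : Fin R → Bool) (ν : E m → Fin (N + 1)) {T : ℕ}
    (hT : 1 ≤ T) (ω : Om (E m) k b U) (e0 e1 : E m)
    (he0 : e0 ∉ (procN (k := k) (b := b) A h L Y mu ρ ν T).rev ω 0
      (A.init (flagOf h) ρ) (D * T) k) (t : ℕ) (ht : t ≤ D) :
    fst A h L Y mu ω (tinyQ ν e0 e1) ρ t = fst A h L Y mu ω (tinyN ν) ρ t := by
  induction t with
  | zero => rfl
  | succ t ih =>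
    show A.next _ _ _ _ _ = A.next _ _ _ _ _
    rw [ih (by omega)]
    congr 1
    have h1 : ∀ q, A.ask (flagOf h) ρ t (fst A h L Y mu ω (tinyN ν) ρ t) = .sign q →
        Pass (qcoef h q) ω k → qcoef h q e0 = 0 := by
      intro q hq hP
      by_contra hcon
      exact he0 (rev_of_sign A h L Y mu ρ ν hT ω (by omega) hq hP hcon)
    generalize A.ask (flagOf h) ρ t (fst A h L Y mu ω (tinyN ν) ρ t) = Q at h1
    cases Q with
    | sign q =>
      show SignType.sign (q.val _) = SignType.sign (q.val _)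
      by_cases hP : Pass (qcoef h q) ω k
      · have hz := h1 q rfl hP
        have e1 : ∀ (ω : Om (E m) k b U) (tiny : E m → ℤ),
          q.val (instOf h (wgt L Y mu ω tiny)) =
          q.const + ∑ e, qcoef h q e * value L Y mu ω tiny e := fun ω tiny =>
          Pc.val_inst h q (value L Y mu ω tiny)
        rw [e1, e1]
        congr 2
        apply sum_congr rfl
        intro e _
        by_cases he : e = e0
        · rw [he, hz]; simp
        · congr 1
          unfold value tinyQ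
          rw [if_neg he]
      · exact sign_wgt_N h hmu hM hY hL _ hP (fun _ _ _ _ => rfl) (tinyQ_abs ν e0 e1)
          (tinyN_abs ν)
    | zero f hf => rfl

/-- Exceptional answer in the basic instance. -/
def badN (A : Alg n D W R (MixQ n s K C d) SignType) (h : 3 * m ≤ n) (L Y : ℕ)
    (mu : Fin U → ℕ) (ω : Om (E m) k b U) (ρ : Fin R → Bool) (ν : E m → Fin (N + 1)) : Prop :=
  ∃ t < D, ∃ f hf, A.ask (flagOf h) ρ t (fst A h L Y mu ω (tinyN ν) ρ t) = .zero f hf ∧
    (∃ y, pev h f y ≠ 0) ∧ pev h f (fun e => (value L Y mu ω (tinyN ν) e : ℝ)) = 0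

/-- Exceptional answer in the planted instance. -/
def badQ (A : Alg n D W R (MixQ n s K C d) SignType) (h : 3 * m ≤ n) (L Y : ℕ)
    (mu : Fin U → ℕ) (ω : Om (E m) k b U) (ρ : Fin R → Bool) (e0 e1 : E m)
    (ν : E m → Fin (N + 1)) : Prop :=
  ∃ t < D, ∃ f hf, A.ask (flagOf h) ρ t (fst A h L Y mu ω (tinyQ ν e0 e1) ρ t) = .zero f hf ∧
    (∃ y, pev h f (Function.update y e0 (y e1)) ≠ 0) ∧
    pev h f (fun e => (value L Y mu ω (tinyQ ν e0 e1) e : ℝ)) = 0

lemma output_of_state (A : Alg n D W R (MixQ n s K C d) SignType) (h : 3 * m ≤ n)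
    (w : E m → ℤ) (ρ : Fin R → Bool) :
    A.output (mixFam n s K C d) (instOf h w) ρ =
      A.out (flagOf h) ρ (A.state (mixFam n s K C d) (instOf h w) ρ D) := rfl

/-- If the element is not revealed and there are no exceptional answers, then the outputs agree. -/
theorem output_plant (A : Alg n D W R (MixQ n s K C d) SignType) (h : 3 * m ≤ n) {L Y M : ℕ}
    {mu : Fin U → ℕ} (hmu : Free mu s (s * K)) (hM : ∀ u, mu u ≤ M) (hY : s * K * M < Y)
    (hL : C + s * K * (2 * N + 1) + 1 ≤ L) (ρ : Fin R → Bool) (ν : E m → Fin (N + 1)) {T : ℕ}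
    (hT : 1 ≤ T) (hdT : d ≤ T) (ω : Om (E m) k b U) (e0 e1 : E m) (h0 : e0.1 = 0) (h1 : e1.1 = 1)
    (hg : ∀ r : Fin k, g r ω e0 = g r ω e1)
    (he0 : e0 ∉ (procN (k := k) (b := b) A h L Y mu ρ ν T).rev ω 0
      (A.init (flagOf h) ρ) (D * T) k)
    (hbN : ¬ badN A h L Y mu ω ρ ν) (hbQ : ¬ badQ A h L Y mu ω ρ e0 e1 ν) :
    A.output (mixFam n s K C d) (instOf h (wgt L Y mu ω (tinyN ν))) ρ =
      A.output (mixFam n s K C d) (instOf h (wgt L Y mu ω (tinyQ ν e0 e1))) ρ := by
  classical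
  have hpl := fst_plant A h hmu hM hY hL ρ ν hT ω e0 e1 he0
  rw [output_of_state, output_of_state]
  rw [state_eq A h L Y mu ω (tinyN ν) ρ ?_ D le_rfl,
    state_eq A h L Y mu ω (tinyQ ν e0 e1) ρ ?_ D le_rfl, hpl D le_rfl]
  · intro t ht f hf hq hex hz
    apply hbQ
    refine ⟨t, ht, f, hf, hq, ?_, hz⟩
    by_contra hcon
    push Not at hcon
    apply he0
    have hcov : (e0, e1) ∈ covp h f := by
      unfold covp
      rw [if_neg (by push Not; exact hex), mem_filter]
      refine ⟨mem_univ _, h0, h1, ?_⟩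
      intro y hy
      have h2 := hcon y
      rw [← hy] at h2
      rwa [Function.update_eq_self] at h2
    rw [hpl t ht.le] at hq
    exact rev_of_zero A h L Y mu ρ ν hT hdT ω ht hq hcov hg
  · intro t ht f hf hq hex hz
    exact hbN ⟨t, ht, f, hf, hq, hex, hz⟩

end Pool.Agent.Helper8.ZT
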