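import Pool.Agent.Helper8.ZT.Bad

set_option autoImplicit false

/-!
# The transfer for sign queries and zero tests
-/

namespace Pool.Agent.Helper8.ZT

open Finset
open Pool.Agent.Helper22.ETModel Pool.Agent.Helper22.TSModel Pool.Agent.Helper22.EP
open Pool.Agent.Helper23.SP

variable {n m s K C d D W R k b U N : ℕ} [NeZero b]

open Classical in
/-- A mate of the element `(0, i, j)`. -/
noncomputable def mate (ω : Om (E m) k b U) (p : Fin m × Fin m) : Fin m :=
  if h : ∃ l : Fin m, ω.1 (1, p.2, l) = ω.1 (0, p.1, p.2) then h.choose else p.1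

lemma mate_spec {ω : Om (E m) k b U} {p : Fin m × Fin m}
    (h : ∃ l : Fin m, ω.1 (1, p.2, l) = ω.1 (0, p.1, p.2)) :
    ω.1 (1, p.2, mate ω p) = ω.1 (0, p.1, p.2) := by
  unfold mate
  rw [dif_pos h]
  exact h.choose_spec

open Classical in
/-- The revealed elements of type `0`. -/
noncomputable def rvN (A : Alg n D W R (MixQ n s K C d) SignType) (h : 3 * m ≤ n) (L Y : ℕ)
    (mu : Fin U → ℕ) (T : ℕ) (ω : Om (E m) k b U) (ν : E m → Fin (N + 1)) (ρ : Fin R → Bool) :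
    Finset (Fin m × Fin m) :=
  univ.filter (fun p => ((0, p.1, p.2) : E m) ∈
    (procN (k := k) (b := b) A h L Y mu ρ ν T).rev ω 0 (A.init (flagOf h) ρ) (D * T) k)

lemma rvN_card_le (A : Alg n D W R (MixQ n s K C d) SignType) (h : 3 * m ≤ n) (L Y : ℕ)
    (mu : Fin U → ℕ) (T : ℕ) (ω : Om (E m) k b U) (ν : E m → Fin (N + 1)) (ρ : Fin R → Bool) :
    (rvN A h L Y mu T ω ν ρ).card ≤
      ((procN (k := k) (b := b) A h L Y mu ρ ν T).rev ω 0
        (A.init (flagOf h) ρ) (D * T) k).card := by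
  classical
  apply card_le_card_of_injOn (fun p => ((0, p.1, p.2) : E m))
  · intro p hp
    rw [mem_coe, rvN, mem_filter] at hp
    exact hp.2
  · intro p _ p' _ hpp
    simp only [Prod.mk.injEq, true_and] at hpp
    exact Prod.ext hpp.1 hpp.2

lemma rvN_card_le' (A : Alg n D W R (MixQ n s K C d) SignType) (h : 3 * m ≤ n) (L Y : ℕ)
    (mu : Fin U → ℕ) (T : ℕ) (ω : Om (E m) k b U) (ν : E m → Fin (N + 1)) (ρ : Fin R → Bool) :
    (rvN A h L Y mu T ω ν ρ).card ≤ m ^ 2 := by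
  classical
  refine (card_le_univ _).trans ?_
  rw [Fintype.card_prod, Fintype.card_fin, sq]

open Classical in
/-- The elements of type `0` for which the planted change can be noticed. -/
noncomputable def rvB (A : Alg n D W R (MixQ n s K C d) SignType) (h : 3 * m ≤ n) (L Y : ℕ)
    (mu : Fin U → ℕ) (T : ℕ) (ω : Om (E m) k b U) (ν : E m → Fin (N + 1)) (ρ : Fin R → Bool) :
    Finset (Fin m × Fin m) :=
  univ.filter (fun p => ((0, p.1, p.2) : E m) ∈
    (procN (k := k) (b := b) A h L Y mu ρ ν T).rev ω 0 (A.init (flagOf h) ρ) (D * T) k ∨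
    badN A h L Y mu ω ρ ν ∨
    ((∃ l : Fin m, ω.1 (1, p.2, l) = ω.1 (0, p.1, p.2)) ∧
      badQ A h L Y mu ω ρ (0, p.1, p.2) (1, p.2, mate ω p) ν))

open Classical in
lemma rvB_card_le (A : Alg n D W R (MixQ n s K C d) SignType) (h : 3 * m ≤ n) (L Y : ℕ)
    (mu : Fin U → ℕ) (T : ℕ) (ω : Om (E m) k b U) (ν : E m → Fin (N + 1)) (ρ : Fin R → Bool) :
    (rvB A h L Y mu T ω ν ρ).card ≤ (rvN A h L Y mu T ω ν ρ).card +
      ((if badN A h L Y mu ω ρ ν then m ^ 2 else 0) +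
      ∑ p : Fin m × Fin m, if (∃ l : Fin m, ω.1 (1, p.2, l) = ω.1 (0, p.1, p.2)) ∧
        badQ A h L Y mu ω ρ (0, p.1, p.2) (1, p.2, mate ω p) ν then 1 else 0) := by
  unfold rvB rvN
  rw [filter_or, filter_or]
  refine (card_union_le _ _).trans (Nat.add_le_add_left ((card_union_le _ _).trans ?_) _)
  apply Nat.add_le_add
  · split_ifs with h1
    · refine (card_le_univ _).trans ?_
      rw [Fintype.card_prod, Fintype.card_fin, sq]
    · rw [filter_false_of_mem (fun _ _ => h1)]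
      simp
  · rw [card_filter]

/-- The bound for the number of exceptional noise vectors. -/
def Bd (n m s K C d D N : ℕ) : ℕ :=
  D * (Fintype.card (E m) * ((2 * ((n ^ 2 * (2 * K + 1)) ^ s * (2 * C + 1)) + 1) * d) *
    Fintype.card (E m → Fin (N + 1)))

open Classical in
lemma sum_rvB_le (A : Alg n D W R (MixQ n s K C d) SignType) (h : 3 * m ≤ n) (L Y : ℕ)
    (mu : Fin U → ℕ) (T : ℕ) (ω : Om (E m) k b U) (ρ : Fin R → Bool) :
    (∑ ν : E m → Fin (N + 1), (rvB A h L Y mu T ω ν ρ).card) * (N + 1) ≤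
      (∑ ν : E m → Fin (N + 1), (rvN A h L Y mu T ω ν ρ).card) * (N + 1) +
        2 * m ^ 2 * Bd n m s K C d D N := by
  have h1 : ∑ ν : E m → Fin (N + 1), (rvB A h L Y mu T ω ν ρ).card ≤
      ∑ ν : E m → Fin (N + 1), (rvN A h L Y mu T ω ν ρ).card +
      ((univ.filter (fun ν : E m → Fin (N + 1) => badN A h L Y mu ω ρ ν)).card * m ^ 2 +
      ∑ p : Fin m × Fin m, (univ.filter (fun ν : E m → Fin (N + 1) =>
        (∃ l : Fin m, ω.1 (1, p.2, l) = ω.1 (0, p.1, p.2)) ∧
        badQ A h L Y mu ω ρ (0, p.1, p.2) (1, p.2, mate ω p) ν)).card) := by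
    refine (sum_le_sum (fun ν _ => rvB_card_le A h L Y mu T ω ν ρ)).trans ?_
    rw [sum_add_distrib, sum_add_distrib]
    apply Nat.add_le_add_left
    apply Nat.add_le_add
    · rw [← sum_filter, sum_const, smul_eq_mul]
    · rw [sum_comm]
      apply sum_le_sum
      intro p _
      rw [card_filter]
  have h2 : (univ.filter (fun ν : E m → Fin (N + 1) => badN A h L Y mu ω ρ ν)).card * (N + 1) ≤
      Bd n m s K C d D N := card_badN_le A h L Y mu ω ρ
  have h3 : ∀ p : Fin m × Fin m, (univ.filter (fun ν : E m → Fin (N + 1) =>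
        (∃ l : Fin m, ω.1 (1, p.2, l) = ω.1 (0, p.1, p.2)) ∧
        badQ A h L Y mu ω ρ (0, p.1, p.2) (1, p.2, mate ω p) ν)).card * (N + 1) ≤
      Bd n m s K C d D N := by
    intro p
    by_cases hm : ∃ l : Fin m, ω.1 (1, p.2, l) = ω.1 (0, p.1, p.2)
    · refine le_trans (Nat.mul_le_mul_right _ (card_le_card ?_))
        (card_badQ_le A h L Y mu ω ρ (e0 := (0, p.1, p.2)) (e1 := (1, p.2, mate ω p)) rfl rfl ?_)
      · intro ν hν
        rw [mem_filter] at hν ⊢
        exact ⟨hν.1, hν.2.2⟩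
      · intro r
        unfold g
        rw [mate_spec hm]
    · rw [filter_false_of_mem (fun ν _ hν => hm hν.1)]
      simp
  calc (∑ ν : E m → Fin (N + 1), (rvB A h L Y mu T ω ν ρ).card) * (N + 1)
      ≤ (∑ ν : E m → Fin (N + 1), (rvN A h L Y mu T ω ν ρ).card +
      ((univ.filter (fun ν : E m → Fin (N + 1) => badN A h L Y mu ω ρ ν)).card * m ^ 2 +
      ∑ p : Fin m × Fin m, (univ.filter (fun ν : E m → Fin (N + 1) =>
        (∃ l : Fin m, ω.1 (1, p.2, l) = ω.1 (0, p.1, p.2)) ∧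
        badQ A h L Y mu ω ρ (0, p.1, p.2) (1, p.2, mate ω p) ν)).card)) * (N + 1) :=
        Nat.mul_le_mul_right _ h1
    _ = (∑ ν : E m → Fin (N + 1), (rvN A h L Y mu T ω ν ρ).card) * (N + 1) +
      (((univ.filter (fun ν : E m → Fin (N + 1) => badN A h L Y mu ω ρ ν)).card * (N + 1)) *
        m ^ 2 + ∑ p : Fin m × Fin m, (univ.filter (fun ν : E m → Fin (N + 1) =>
        (∃ l : Fin m, ω.1 (1, p.2, l) = ω.1 (0, p.1, p.2)) ∧
        badQ A h L Y mu ω ρ (0, p.1, p.2) (1, p.2, mate ω p) ν)).card * (N + 1)) := by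
        rw [← sum_mul]
        ring
    _ ≤ (∑ ν : E m → Fin (N + 1), (rvN A h L Y mu T ω ν ρ).card) * (N + 1) +
      (Bd n m s K C d D N * m ^ 2 + ∑ _p : Fin m × Fin m, Bd n m s K C d D N) := by
        apply Nat.add_le_add_left
        exact Nat.add_le_add (Nat.mul_le_mul_right _ h2) (sum_le_sum (fun p _ => h3 p))
    _ = _ := by
        rw [sum_const, card_univ, Fintype.card_prod, Fintype.card_fin, smul_eq_mul]
        ring

/-- The transfer: the average number of revealed elements of type `0` is at least about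
`m ^ 2 / 6`. -/
theorem transferN (h : 3 * m ≤ n) (hs : 1 ≤ s) (hK : 1 ≤ K) (hbk : b ^ k ≤ m) {L Y M : ℕ}
    {mu : Fin U → ℕ} (hmu : Free mu s (s * K)) (hM : ∀ u, mu u ≤ M) (hY : s * K * M < Y)
    (hL : C + s * K * (2 * N + 1) + 1 ≤ L) (hr : L * Y ^ k ≤ n ^ 300) {T : ℕ} (hT : 1 ≤ T)
    (hdT : d ≤ T)
    (hsmall : 24 * m ^ 2 * (D * (Fintype.card (E m) *
      ((2 * ((n ^ 2 * (2 * K + 1)) ^ s * (2 * C + 1)) + 1) * d))) < N + 1) (hU : 1 ≤ U)
    (A : Alg n D W R (MixQ n s K C d) SignType) (hA : A.Decides (mixFam n s K C d)) :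
    2 * m ^ 2 * (2 ^ R * (Fintype.card (Om (E m) k b U) * Fintype.card (E m → Fin (N + 1)))) <
      12 * (∑ ω : Om (E m) k b U, ∑ ν : E m → Fin (N + 1), ∑ ρ,
        (rvN A h L Y mu T ω ν ρ).card) +
      2 ^ R * (Fintype.card (Om (E m) k b U) * Fintype.card (E m → Fin (N + 1))) := by
  classical
  have hsK : 1 ≤ s * K := Nat.mul_pos hs hK
  have hMY : ∀ u, mu u < Y := by
    intro u
    refine lt_of_le_of_lt (hM u) (lt_of_le_of_lt ?_ hY)
    exact Nat.le_mul_of_pos_left M hsK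
  have hB : 2 * N + 1 ≤ s * K * (2 * N + 1) := Nat.le_mul_of_pos_left _ hsK
  have hLB : 2 * N + 1 ≤ L := by omega
  have hL2 : 2 * N + 2 ≤ L := by omega
  let Mt : Fin m × Fin m → (Om (E m) k b U × (E m → Fin (N + 1))) → Prop :=
    fun p ω => ∃ l : Fin m, ω.1.1 (1, p.2, l) = ω.1.1 (0, p.1, p.2)
  have key := Pc.averaging (Ω := Om (E m) k b U × (E m → Fin (N + 1))) (R := Fin R → Bool) (X := Fin m × Fin m)
    (fun ω ρ => A.output (mixFam n s K C d) (instOf h (wgt L Y mu ω.1 (tinyN ω.2))) ρ)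
    (fun p ω ρ => if Mt p ω then A.output (mixFam n s K C d)
      (instOf h (wgt L Y mu ω.1 (tinyQ ω.2 (0, p.1, p.2) (1, p.2, mate ω.1 p)))) ρ
      else A.output (mixFam n s K C d) (instOf h (wgt L Y mu ω.1 (tinyN ω.2))) ρ)
    Mt (fun ω ρ => rvB A h L Y mu T ω.1 ω.2 ρ) ?_ ?_ ?_ ?_
  · rw [Fintype.card_prod (Fin m), Fintype.card_fin, Fintype.card_fun, Fintype.card_bool,
      Fintype.card_fin, ← sq, Fintype.card_prod, Fintype.sum_prod_type] at key
    have h1 : (∑ ω : Om (E m) k b U, ∑ ν : E m → Fin (N + 1), ∑ ρ,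
        (rvB A h L Y mu T ω ν ρ).card) * (N + 1) ≤
        (∑ ω : Om (E m) k b U, ∑ ν : E m → Fin (N + 1), ∑ ρ,
        (rvN A h L Y mu T ω ν ρ).card) * (N + 1) +
        Fintype.card (Om (E m) k b U) * (2 ^ R * (2 * m ^ 2 * Bd n m s K C d D N)) := by
      have h2 : ∀ ω : Om (E m) k b U, (∑ ν : E m → Fin (N + 1), ∑ ρ,
          (rvB A h L Y mu T ω ν ρ).card) * (N + 1) ≤
          (∑ ν : E m → Fin (N + 1), ∑ ρ, (rvN A h L Y mu T ω ν ρ).card) * (N + 1) +
          2 ^ R * (2 * m ^ 2 * Bd n m s K C d D N) := by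
        intro ω
        rw [sum_comm, sum_mul, sum_comm, sum_mul]
        refine (sum_le_sum (fun ρ _ => sum_rvB_le A h L Y mu T ω ρ)).trans ?_
        rw [sum_add_distrib, sum_const, card_univ, Fintype.card_fun, Fintype.card_bool,
          Fintype.card_fin, smul_eq_mul]
      rw [sum_mul, sum_mul]
      refine (sum_le_sum (fun ω _ => h2 ω)).trans ?_
      rw [sum_add_distrib, sum_const, card_univ, smul_eq_mul]
    have hcO : 0 < Fintype.card (Om (E m) k b U) := by
      apply Fintype.card_pos_iff.2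
      exact ⟨(fun _ _ => 0, fun _ _ => ⟨0, hU⟩)⟩
    have hcN : 0 < Fintype.card (E m → Fin (N + 1)) := Fintype.card_pos_iff.2 ⟨fun _ => 0⟩
    have hR : 0 < 2 ^ R := by positivity
    have h3 : 24 * m ^ 2 * Bd n m s K C d D N < (N + 1) * Fintype.card (E m → Fin (N + 1)) := by
      have h4 := Nat.mul_lt_mul_of_pos_right hsmall hcN
      calc 24 * m ^ 2 * Bd n m s K C d D N = 24 * m ^ 2 * (D * (Fintype.card (E m) *
            ((2 * ((n ^ 2 * (2 * K + 1)) ^ s * (2 * C + 1)) + 1) * d))) *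
            Fintype.card (E m → Fin (N + 1)) := by unfold Bd; ring
        _ < _ := h4
    set cO := Fintype.card (Om (E m) k b U)
    set cN := Fintype.card (E m → Fin (N + 1))
    set SB := ∑ ω : Om (E m) k b U, ∑ ν : E m → Fin (N + 1), ∑ ρ,
      (rvB A h L Y mu T ω ν ρ).card
    set SN := ∑ ω : Om (E m) k b U, ∑ ν : E m → Fin (N + 1), ∑ ρ,
      (rvN A h L Y mu T ω ν ρ).card
    apply Nat.lt_of_mul_lt_mul_right (a := N + 1)
    calc 2 * m ^ 2 * (2 ^ R * (cO * cN)) * (N + 1)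
        = 2 * (m ^ 2 * 2 ^ R * (cO * cN)) * (N + 1) := by ring
      _ ≤ 2 * (6 * SB) * (N + 1) := Nat.mul_le_mul_right _ (Nat.mul_le_mul_left _ key)
      _ = 12 * (SB * (N + 1)) := by ring
      _ ≤ 12 * (SN * (N + 1) + cO * (2 ^ R * (2 * m ^ 2 * Bd n m s K C d D N))) :=
          Nat.mul_le_mul_left _ h1
      _ = 12 * SN * (N + 1) + (cO * 2 ^ R) * (24 * m ^ 2 * Bd n m s K C d D N) := by ring
      _ < 12 * SN * (N + 1) + (cO * 2 ^ R) * ((N + 1) * cN) :=
          Nat.add_lt_add_left (Nat.mul_lt_mul_of_pos_left h3 (Nat.mul_pos hcO hR)) _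
      _ = (12 * SN + 2 ^ R * (cO * cN)) * (N + 1) := by ring
  · intro ω
    have h1 := hA (instOf h (wgt L Y mu ω.1 (tinyN ω.2)))
      (inst_valid_B h hMY hLB hr ω.1 (tinyN_bound ω.2))
    rw [Fintype.card_fun, Fintype.card_bool, Fintype.card_fin]
    refine h1.trans (Nat.mul_le_mul_left _ (card_le_card ?_))
    intro ρ hρ
    rw [mem_filter] at hρ ⊢
    refine ⟨mem_univ _, ?_⟩
    have h2 := base_no_N h hL2 mu ω.1 ω.2 (Y := Y)
    have h3 : ¬ (A.output (mixFam n s K C d) (instOf h (wgt L Y mu ω.1 (tinyN ω.2))) ρ = true) :=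
      fun hh => h2 (hρ.2.1 hh)
    simpa using h3
  · rintro ⟨i, j⟩ ω hm
    have h1 := hA (instOf h (wgt L Y mu ω.1 (tinyQ ω.2 (0, i, j) (1, j, mate ω.1 (i, j)))))
      (inst_valid_B h hMY hLB hr ω.1 (tinyQ_bound ω.2 _ _))
    rw [Fintype.card_fun, Fintype.card_bool, Fintype.card_fin]
    refine h1.trans (Nat.mul_le_mul_left _ (card_le_card ?_))
    intro ρ hρ
    rw [mem_filter] at hρ ⊢
    refine ⟨mem_univ _, ?_⟩
    rw [if_pos hm]
    exact hρ.2.2 (plant_yes_N h mu ω.1 ω.2 i j (mate ω.1 (i, j)) (mate_spec hm))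
  · rintro ⟨i, j⟩
    have h1 : 2 * (univ.filter (fun ω : Om (E m) k b U =>
        ¬ ∃ l : Fin m, ω.1 (1, j, l) = ω.1 (0, i, j))).card ≤
        Fintype.card (Om (E m) k b U) := by
      convert Pc.mate_prob (U := U) hbk i j
    have h2 : (univ.filter (fun ω : Om (E m) k b U × (E m → Fin (N + 1)) =>
        ¬ Mt (i, j) ω)) ⊆
        (univ.filter (fun ω : Om (E m) k b U =>
          ¬ ∃ l : Fin m, ω.1 (1, j, l) = ω.1 (0, i, j))) ×ˢ
          (univ : Finset (E m → Fin (N + 1))) := by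
      intro ω hω
      rw [mem_product, mem_filter]
      exact ⟨⟨mem_univ _, (mem_filter.1 hω).2⟩, mem_univ _⟩
    have h3 := card_le_card h2
    rw [card_product, card_univ] at h3
    rw [Fintype.card_prod]
    calc _ ≤ 2 * ((univ.filter (fun ω : Om (E m) k b U =>
          ¬ ∃ l : Fin m, ω.1 (1, j, l) = ω.1 (0, i, j))).card *
          Fintype.card (E m → Fin (N + 1))) := by
          apply Nat.mul_le_mul_left
          convert h3
      _ = 2 * (univ.filter (fun ω : Om (E m) k b U =>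
          ¬ ∃ l : Fin m, ω.1 (1, j, l) = ω.1 (0, i, j))).card *
          Fintype.card (E m → Fin (N + 1)) := by ring
      _ ≤ _ := Nat.mul_le_mul_right _ h1
  · rintro ⟨i, j⟩ ω ρ hne
    by_cases hm : Mt (i, j) ω
    · rw [if_pos hm] at hne
      by_contra hnot
      have hnot' : ¬ (((0, i, j) : E m) ∈
        (procN (k := k) (b := b) A h L Y mu ρ ω.2 T).rev ω.1 0
          (A.init (flagOf h) ρ) (D * T) k ∨
        badN A h L Y mu ω.1 ρ ω.2 ∨
        ((∃ l : Fin m, ω.1.1 (1, j, l) = ω.1.1 (0, i, j)) ∧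
          badQ A h L Y mu ω.1 ρ (0, i, j) (1, j, mate ω.1 (i, j)) ω.2)) := by
        intro hh
        apply hnot
        exact mem_filter.2 ⟨mem_univ _, hh⟩
      push Not at hnot'
      apply hne
      exact output_plant A h hmu hM hY hL ρ ω.2 hT hdT ω.1 (0, i, j) (1, j, mate ω.1 (i, j))
        rfl rfl (by intro r; unfold g; rw [mate_spec hm]) hnot'.1 hnot'.2.1 (hnot'.2.2 hm)
    · rw [if_neg hm] at hne
      exact absurd rfl hne

end Pool.Agent.Helper8.ZT
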